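import Pool.Agent.H32.AZ.A0
import Pool.Agent.H32.CZ.Qf
import Pool.Agent.H32.CZ.Qg

/-!
# MP_ede373, all algebraic points, row Al: the constants

`E_ne`: copy of `E4_E6_ne` (`CZ/Qg.lean`) where `c.hirz` is replaced by `hcm` (the relation with integer coefficients
`m^2, 2mn + m, n^2 + n + 1` resp. `m^2, 2 m n, n^2 + 1`: if `m ≠ 0` it contradicts `hcm` (then `a = m^2 ≠ 0`), and if `m = 0` the
relation says `n^2 + n + 1 = 0` resp. `n^2 + 1 = 0`, impossible for integers).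

`cstV_alg`: copy of the proof of `cst_alg` (`CZ/Qf.lean`): the elements algebraic over the field form a field `M` which
contains `ep`, `0`, `h`, `kap`, `2πi/lam^2`; and `K.nus`, `K.z`, `K.ze`, `K.nu` are algebraic over `ℚ`
(`K.alg_nus` etc.), hence in `M` (`IsAlgebraic.tower_top`).
-/

set_option autoImplicit false

open EisensteinSeries ModularForm UpperHalfPlane

namespace AZ

open CZ

theorem E_ne (z : ℂ)
    (hcm : ¬ ∃ a b c : ℤ, (a ≠ 0 ∨ b ≠ 0 ∨ c ≠ 0) ∧ (a : ℂ) * z ^ 2 + b * z + c = 0)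
    (τ : ℍ) (hτ : (τ : ℂ) = z) : E₄ τ ≠ 0 ∧ E₆ τ ≠ 0 := by
  have hpi : (Real.pi : ℂ) ≠ 0 := by exact_mod_cast Real.pi_ne_zero
  have h1mem : (1 : ℂ) ∈ (H32.T3.LL τ).lattice := (H32.T3.LL τ).ω₂_mem_lattice
  have hlat : ∀ x : ℂ, x ∈ (H32.T3.LL τ).lattice → ∃ m n : ℤ, x = m * z + n := by
    intro x hx
    rw [PeriodPair.mem_lattice] at hx
    obtain ⟨m, n, h⟩ := hx
    refine ⟨m, n, ?_⟩
    rw [← h, ← hτ]
    change (m : ℂ) * (τ : ℂ) + (n : ℂ) * 1 = _
    ring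
  constructor
  · intro h0
    obtain ⟨s, hs⟩ := IsAlgClosed.exists_pow_nat_eq (-3 : ℂ) (n := 2) (by norm_num)
    obtain ⟨a, ha⟩ : ∃ a : ℂ, a = (-1 + s) / 2 := ⟨_, rfl⟩
    have ha1 : a ^ 2 + a + 1 = 0 := by
      rw [ha]
      linear_combination hs / 4
    have ha0 : a ≠ 0 := by
      rintro rfl
      norm_num at ha1
    have ha3 : a ^ 3 = 1 := by linear_combination (a - 1) * ha1
    have hg2 : (H32.T3.LL τ).g₂ = 0 := by rw [H32.T3.g2_eq, h0, mul_zero]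
    have hst := lattice_stable (H32.T3.LL τ) a ha0 (by rw [hg2, mul_zero])
      (by
        have : a ^ 6 = 1 := by
          calc a ^ 6 = (a ^ 3) ^ 2 := by ring
            _ = 1 := by rw [ha3, one_pow]
        rw [this, one_mul]) 1 h1mem
    rw [mul_one] at hst
    obtain ⟨m, n, hmn⟩ := hlat _ hst
    have hinv : a⁻¹ = -1 - a := by
      field_simp
      linear_combination ha1
    rw [hinv] at hmn
    have hx : (-1 - a) ^ 2 + (-1 - a) + 1 = 0 := by linear_combination ha1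
    rw [hmn] at hx
    refine hcm ⟨m ^ 2, 2 * m * n + m, n ^ 2 + n + 1, Or.inr (Or.inr ?_), ?_⟩
    · intro h5
      nlinarith [sq_nonneg (2 * n + 1)]
    · push_cast
      linear_combination hx
  · intro h0
    have hg3 : (H32.T3.LL τ).g₃ = 0 := by rw [H32.T3.g3_eq, h0, mul_zero]
    have hst := lattice_stable (H32.T3.LL τ) Complex.I Complex.I_ne_zero
      (by rw [Complex.I_pow_four, one_mul]) (by rw [hg3, mul_zero]) 1 h1mem
    rw [mul_one, Complex.inv_I] at hst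
    obtain ⟨m, n, hmn⟩ := hlat _ hst
    have hx : (-Complex.I) ^ 2 + 1 = 0 := by
      rw [neg_sq, Complex.I_sq]
      norm_num
    rw [hmn] at hx
    refine hcm ⟨m ^ 2, 2 * m * n, n ^ 2 + 1, Or.inr (Or.inr ?_), ?_⟩
    · intro h5
      nlinarith [sq_nonneg n]
    · push_cast
      linear_combination hx

theorem cstV_alg {S ι : Type} [Fintype S] [DecidableEq S] [Fintype ι] [DecidableEq ι] (K : KD S ι)
    (τ : ℍ) (hτ : (τ : ℂ) = K.z) (he4 : E₄ τ ≠ 0) (he6 : E₆ τ ≠ 0)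
    (E4 E6 Jf : ℂ → ℂ)
    (h4 : ∀ τ : ℂ, E4 τ = 1 + 240 * ∑' m : ℕ, ((ArithmeticFunction.sigma 3 (m + 1) : ℕ) : ℂ) *
          Complex.exp (2 * (Real.pi : ℂ) * Complex.I * ((m : ℂ) + 1) * τ))
    (h6 : ∀ τ : ℂ, E6 τ = 1 - 504 * ∑' m : ℕ, ((ArithmeticFunction.sigma 5 (m + 1) : ℕ) : ℂ) *
          Complex.exp (2 * (Real.pi : ℂ) * Complex.I * ((m : ℂ) + 1) * τ))
    (hJ : ∀ τ : ℂ, Jf τ = 1728 * E4 τ ^ 3 / (E4 τ ^ 3 - E6 τ ^ 2)) (lam ep : ℂ)
    (hlam : 2 * Real.pi * Complex.I / lam ^ 2 = 9 * Complex.I * (E₄ τ / (Real.pi * E₆ τ)))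
    (hep : 4 * ep ^ 3 - 2 * (27 / 2 * (E₄ τ ^ 3 / E₆ τ ^ 2)) * ep -
        2 * (27 / 2 * (E₄ τ ^ 3 / E₆ τ ^ 2)) = 0) (v : Vs S ι) :
    IsAlgebraic (IntermediateField.adjoin ℚ
      ({Jf K.z, deriv Jf K.z, deriv (deriv Jf) K.z} : Set ℂ))
      (cstV K lam (27 / 2 * (E₄ τ ^ 3 / E₆ τ ^ 2)) (3 / 2 * (E2 τ * E₄ τ / E₆ τ)) ep v) := by
  obtain ⟨v0, v1, v2⟩ := H32.J_values h4 h6 hJ K.hz
  have hof : ofComplex K.z = τ := by rw [← hτ]; exact ofComplex_apply τ
  have ha : H32.e4 K.z = E₄ τ := by rw [H32.e4, hof]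
  have hb : H32.e6 K.z = E₆ τ := by rw [H32.e6, hof]
  have hg : H32.e2 K.z = E2 τ := by rw [H32.e2, hof]
  have hΔ : E₄ τ ^ 3 - E₆ τ ^ 2 ≠ 0 := by
    have := H32.disc_ne (w := K.z)
    rwa [ha, hb] at this
  rw [ha, hb] at v0
  rw [H32.J1, ha, hb] at v1
  rw [H32.J2, ha, hb, hg] at v2
  generalize hFLD : IntermediateField.adjoin ℚ
      ({Jf K.z, deriv Jf K.z, deriv (deriv Jf) K.z} : Set ℂ) = FLD
  have m0 : IsAlgebraic FLD (Jf K.z) := by
    have : Jf K.z ∈ FLD := by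
      rw [← hFLD]; exact IntermediateField.subset_adjoin _ _ (by simp)
    exact isAlgebraic_algebraMap (⟨_, this⟩ : FLD)
  have m1 : IsAlgebraic FLD (deriv Jf K.z) := by
    have : deriv Jf K.z ∈ FLD := by
      rw [← hFLD]; exact IntermediateField.subset_adjoin _ _ (by simp)
    exact isAlgebraic_algebraMap (⟨_, this⟩ : FLD)
  have m2 : IsAlgebraic FLD (deriv (deriv Jf) K.z) := by
    have : deriv (deriv Jf) K.z ∈ FLD := by
      rw [← hFLD]; exact IntermediateField.subset_adjoin _ _ (by simp)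
    exact isAlgebraic_algebraMap (⟨_, this⟩ : FLD)
  obtain ⟨M, hM⟩ : ∃ M : IntermediateField FLD ℂ, ∀ x, x ∈ M ↔ IsAlgebraic FLD x :=
    ⟨algebraicClosure FLD ℂ, fun x => mem_algebraicClosure_iff⟩
  rw [← hM] at m0 m1 m2
  have nat_mem : ∀ n : ℕ, (n : ℂ) ∈ M := fun n => natCast_mem M n
  have mI : Complex.I ∈ M := by
    rw [hM]
    refine IsAlgebraic.of_pow (n := 2) (by norm_num) ?_
    rw [Complex.I_sq, ← hM]
    exact neg_mem (one_mem M)
  have hπ : (Real.pi : ℂ) ≠ 0 := by exact_mod_cast Real.pi_ne_zero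
  have hI := Complex.I_ne_zero
  have i1728 : (1728 : ℂ) ∈ M := by exact_mod_cast nat_mem 1728
  have i2 : (2 : ℂ) ∈ M := by exact_mod_cast nat_mem 2
  have i3 : (3 : ℂ) ∈ M := by exact_mod_cast nat_mem 3
  have i6 : (6 : ℂ) ∈ M := by exact_mod_cast nat_mem 6
  have i9 : (9 : ℂ) ∈ M := by exact_mod_cast nat_mem 9
  have i27 : (27 : ℂ) ∈ M := by exact_mod_cast nat_mem 27
  generalize E₄ τ = a at *
  generalize E₆ τ = b at *
  generalize E2 τ = g at *
  have mt : a ^ 3 / b ^ 2 ∈ M := by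
    have e : a ^ 3 / b ^ 2 = Jf K.z / (Jf K.z - 1728) := by
      have e1 : Jf K.z - 1728 = 1728 * b ^ 2 / (a ^ 3 - b ^ 2) := by
        rw [v0]; field_simp; ring
      rw [e1, v0]
      field_simp
    rw [e]
    exact div_mem m0 (sub_mem m0 i1728)
  have mu : a / (Real.pi * b) ∈ M := by
    have e : a / (Real.pi * b) = -2 * Complex.I * (Jf K.z / deriv Jf K.z) := by
      rw [v0, v1]
      field_simp
    rw [e]
    exact mul_mem (mul_mem (neg_mem i2) mI) (div_mem m0 m1)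
  have mk : g * a / b ∈ M := by
    have e : g * a / b = 6 * ((deriv (deriv Jf) K.z / deriv Jf K.z) * (a / (Real.pi * b)) /
        (2 * Complex.I) + 2 / 3 + (a ^ 3 / b ^ 2) / 2) := by
      rw [v1, v2]
      field_simp
      ring
    rw [e]
    exact mul_mem i6 (add_mem (add_mem (div_mem (mul_mem (div_mem m2 m1) mu) (mul_mem i2 mI))
      (div_mem i2 i3)) (div_mem mt i2))
  have mh : 27 / 2 * (a ^ 3 / b ^ 2) ∈ M := mul_mem (div_mem i27 i2) mt
  have mep : ep ∈ M := by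
    rw [hM]
    exact Qf_ep ((hM _).1 mh) hep
  have inj : Function.Injective (algebraMap ℚ FLD) := (algebraMap ℚ FLD).injective
  have mz : K.z ∈ M := (hM _).2 (K.alg_z.extendScalars inj)
  have mze : ∀ s, K.ze s ∈ M := fun s => (hM _).2 ((K.alg_ze s).extendScalars inj)
  have mnu : ∀ j s, K.nu j s ∈ M := fun j s => (hM _).2 ((K.alg_nu j s).extendScalars inj)
  have mnus : ∀ j s, K.nus j s ∈ M := fun j s => (hM _).2 ((K.alg_nus j s).extendScalars inj)
  rw [← hM]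
  rcases v with i | p | p
  · fin_cases i
    · exact mep
    · exact zero_mem M
    · exact zero_mem M
    · exact mh
    · exact mul_mem (div_mem i3 i2) mk
    · show 2 * Real.pi * Complex.I / lam ^ 2 ∈ M
      rw [hlam]
      exact mul_mem (mul_mem i9 mI) mu
  · exact mnus p.1 p.2
  · exact mul_mem (sub_mem mz (mze p.2)) (mnu p.1 p.2)

end AZ
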