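import Pool.Agent.H60.AZ.Defs
import Pool.Agent.H32.CZ.Q0

/-!
# MP_ede373, all algebraic points: polynomials for the jets (definitions)

* `tdv`, `at5 r`: the Taylor coefficients of the theta function: with `A' = λ A Y`, `X' = λ X1`, `X1' = λ (6 X^2 - h)`,
`Y' = λ (-X - κ)`, `A^(r)(0) = λ^r at5 r (X(0), X1(0), Y(0), h, κ)`.
* `Vs S ι`: the variables: `inl i` (`i < 5`) the values of `X, X1, Y, h, κ` at `0`, `inl 5` is `2 π i/λ^2`,
`inr (inl (j, s))` is `nus j s`, `inr (inr (j, s))` is `(z - ze s) nu j s`.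
* `MM`: the linear map which replaces `∏_j m_j^(r_j)` by `∏_j at (r_j)`.
* `FP κ n`: the polynomial in `m` (variables `inl j`) and the constants which gives the Taylor coefficient.
-/

set_option autoImplicit false

namespace AZ

open MvPolynomial CZ

/-- The derivation. -/
noncomputable def tdv : Fin 5 → MvPolynomial (Fin 5) ℤ :=
  ![X 1, C 6 * X 0 ^ 2 - X 3, -X 0 - X 4, 0, 0]

/-- The Taylor coefficients of the theta function. -/
noncomputable def at5 (r : ℕ) : MvPolynomial (Fin 5) ℤ := (TD tdv (X 2))^[r] 1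

/-- The variables. -/
abbrev Vs (S ι : Type) : Type := Fin 6 ⊕ ((ι × S) ⊕ (ι × S))

section

variable {S ι : Type} [Fintype S] [DecidableEq S] [Fintype ι] [DecidableEq ι]

/-- `at5` in the variables `Vs`. -/
noncomputable def atV (S ι : Type) (r : ℕ) : MvPolynomial (Vs S ι) ℤ :=
  rename (fun i : Fin 5 ↦ Sum.inl i.castSucc) (at5 r)

/-- Replace `∏_j m_j^(r_j)` by `∏_j at (r_j)`. -/
noncomputable def MM (F : MvPolynomial (ι ⊕ Vs S ι) ℤ) : MvPolynomial (Vs S ι) ℤ :=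
  ∑ u ∈ F.support, C (coeff u F) *
    ((∏ j, atV S ι (u (Sum.inl j))) * ∏ v, X v ^ u (Sum.inr v))

/-- `m*_s`. -/
noncomputable def nusP (s : S) : MvPolynomial (ι ⊕ Vs S ι) ℤ :=
  ∑ j, X (Sum.inl j) * X (Sum.inr (Sum.inr (Sum.inl (j, s))))

/-- `b_s(m)`. -/
noncomputable def bsP (s : S) : MvPolynomial (ι ⊕ Vs S ι) ℤ :=
  ∑ j, X (Sum.inl j) * X (Sum.inr (Sum.inr (Sum.inr (j, s))))

/-- One factor. -/
noncomputable def cfP (κ n : ℕ) (s : S) : MvPolynomial (ι ⊕ Vs S ι) ℤ :=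
  ∑ i ∈ Finset.range (n + 1), C ((κ.choose i * n.descFactorial i : ℕ) : ℤ) *
    (nusP s ^ (κ - i) * X (Sum.inr (Sum.inl 5)) ^ i * bsP s ^ (n - i))

/-- The polynomial of the Taylor coefficient. -/
noncomputable def FP (κ n : S → ℕ) : MvPolynomial (ι ⊕ Vs S ι) ℤ := ∏ s, cfP (κ s) (n s) s

end

/-- The values of the variables. -/
noncomputable def cstV {S ι : Type} [Fintype S] [DecidableEq S] [Fintype ι] [DecidableEq ι]
    (K : KD S ι) (lam h kap ep : ℂ) : Vs S ι → ℂ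
  | Sum.inl i => (![ep, 0, 0, h, kap, 2 * Real.pi * Complex.I / lam ^ 2] : Fin 6 → ℂ) i
  | Sum.inr (Sum.inl p) => K.nus p.1 p.2
  | Sum.inr (Sum.inr p) => (K.z - K.ze p.2) * K.nu p.1 p.2

end AZ
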