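import Pool.Agent.H32.AZ.A0
import Pool.Agent.H32.CZ.Qa

/-!
# MP_ede373, all algebraic points, row At: Taylor coefficients of the theta function

`at5_val`: `iteratedDeriv_TD` (in `CZ/Qa.lean`) with `σ = Fin 5`, `f = ![X s, X1 s, Y s, h, kap]` (as functions of `s`), `m = b.A`,
`dv = tdv`, `g = X 2`, `U` the ball of radius `ε` around `0`, polynomial `1` (so `b.A v * aeval _ 1 = b.A v`). `hf` from `dX, dX1, dY`
(constants for `i = 3, 4`), `hm`: `b.mu * deriv b.A s = b.A s * Y s` (`hA`) and `b.mu = lam⁻¹` (`hmu`) give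
`deriv b.A s = lam * (b.A s * Y s)`, `b.dA`. At `0`: `b.A 0 = 1`, `X 0 = ep`, `X1 0 = 0`, `Y 0 = 0`.

`at5_bd`: `deg_TD_iter`, `nrm_TD_iter` with `e = 1`, `a = 7`, `ag = 1` (degrees of `tdv` at most `2`, `nrm` at most `7`):
`nrm ≤ (7 r + 1)^r`.
-/

set_option autoImplicit false

namespace AZ

open MvPolynomial CZ
open H32.T3 (nrm)

private theorem At_nrm (i : Fin 5) : nrm (tdv i) ≤ 7 := by
  fin_cases i
  · change nrm (X 1) ≤ 7
    rw [H32.T3.nrm_X]; norm_num
  · change nrm (C 6 * X 0 ^ 2 - X 3) ≤ 7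
    rw [sub_eq_add_neg]
    refine (H32.T3.nrm_add_le _ _).trans ?_
    rw [H32.T3.nrm_neg, H32.T3.nrm_X]
    have h1 := H32.T3.nrm_mul_le (C 6 : MvPolynomial (Fin 5) ℤ) (X 0 ^ 2)
    have h2 := H32.T3.nrm_pow_le (X 0 : MvPolynomial (Fin 5) ℤ) 2
    rw [H32.T3.nrm_X, one_pow] at h2
    rw [H32.T3.nrm_C] at h1
    have h3 := H32.T3.nrm_nonneg (X 0 ^ 2 : MvPolynomial (Fin 5) ℤ)
    have h4 : |((6 : ℤ) : ℝ)| = 6 := by norm_num
    rw [h4] at h1
    linarith
  · change nrm (-X 0 - X 4) ≤ 7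
    rw [sub_eq_add_neg]
    refine (H32.T3.nrm_add_le _ _).trans ?_
    rw [H32.T3.nrm_neg, H32.T3.nrm_neg, H32.T3.nrm_X, H32.T3.nrm_X]; norm_num
  · change nrm 0 ≤ 7
    rw [H32.T3.nrm_zero]; norm_num
  · change nrm 0 ≤ 7
    rw [H32.T3.nrm_zero]; norm_num

private theorem At_deg (i : Fin 5) : (tdv i).totalDegree ≤ 1 + 1 := by
  fin_cases i
  · change (X 1 : MvPolynomial (Fin 5) ℤ).totalDegree ≤ 2
    rw [totalDegree_X]; norm_num
  · change (C 6 * X 0 ^ 2 - X 3 : MvPolynomial (Fin 5) ℤ).totalDegree ≤ 2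
    refine (totalDegree_sub _ _).trans (max_le ?_ ?_)
    · refine (totalDegree_mul _ _).trans ?_
      rw [totalDegree_C, zero_add]
      refine (totalDegree_pow _ _).trans ?_
      rw [totalDegree_X]
    · rw [totalDegree_X]; norm_num
  · change (-X 0 - X 4 : MvPolynomial (Fin 5) ℤ).totalDegree ≤ 2
    refine (totalDegree_sub _ _).trans (max_le ?_ ?_)
    · rw [totalDegree_neg, totalDegree_X]; norm_num
    · rw [totalDegree_X]; norm_num
  · change (0 : MvPolynomial (Fin 5) ℤ).totalDegree ≤ 2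
    simp
  · change (0 : MvPolynomial (Fin 5) ℤ).totalDegree ≤ 2
    simp

theorem at5_val {z : ℂ} (b : BaseFn z) (lam h kap ep : ℂ) (ε : ℝ) (Xf X1f Yf : ℂ → ℂ)
    (hb : BaseSys b lam h kap ep ε Xf X1f Yf) (r : ℕ) :
    iteratedDeriv r b.A 0 = lam ^ r * aeval (![ep, 0, 0, h, kap] : Fin 5 → ℂ) (at5 r) := by
  obtain ⟨f, hf⟩ : ∃ f : Fin 5 → ℂ → ℂ, f = ![Xf, X1f, Yf, fun _ ↦ h, fun _ ↦ kap] := ⟨_, rfl⟩
  have h0 : ∀ u, f 0 u = Xf u := fun u ↦ by rw [hf]; rfl
  have h1 : ∀ u, f 1 u = X1f u := fun u ↦ by rw [hf]; rfl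
  have h2 : ∀ u, f 2 u = Yf u := fun u ↦ by rw [hf]; rfl
  have h3 : ∀ u, f 3 u = h := fun u ↦ by rw [hf]; rfl
  have h4 : ∀ u, f 4 u = kap := fun u ↦ by rw [hf]; rfl
  have hD : ∀ u ∈ Metric.ball (0 : ℂ) ε, ∀ i,
      HasDerivAt (f i) (lam * aeval (fun j ↦ f j u) (tdv i)) u := by
    intro u hu i
    have hu' : ‖u‖ < ε := by simpa using hu
    fin_cases i
    · have e : aeval (fun j ↦ f j u) (tdv 0) = X1f u := by
        change aeval (fun j ↦ f j u) (X 1) = X1f u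
        rw [aeval_X, h1]
      have e2 : f 0 = Xf := funext h0
      change HasDerivAt (f 0) (lam * aeval (fun j ↦ f j u) (tdv 0)) u
      rw [e, e2]
      exact hb.dX u hu'
    · have e : aeval (fun j ↦ f j u) (tdv 1) = 6 * Xf u ^ 2 - h := by
        change aeval (fun j ↦ f j u) (C 6 * X 0 ^ 2 - X 3) = _
        simp only [map_sub, map_mul, map_pow, aeval_X, h0, h3]
        simp
      have e2 : f 1 = X1f := funext h1
      change HasDerivAt (f 1) (lam * aeval (fun j ↦ f j u) (tdv 1)) u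
      rw [e, e2]
      exact hb.dX1 u hu'
    · have e : aeval (fun j ↦ f j u) (tdv 2) = -Xf u - kap := by
        change aeval (fun j ↦ f j u) (-X 0 - X 4) = _
        simp only [map_sub, map_neg, aeval_X, h0, h4]
      have e2 : f 2 = Yf := funext h2
      change HasDerivAt (f 2) (lam * aeval (fun j ↦ f j u) (tdv 2)) u
      rw [e, e2]
      exact hb.dY u hu'
    · have e : aeval (fun j ↦ f j u) (tdv 3) = 0 := by
        change aeval (fun j ↦ f j u) (0 : MvPolynomial (Fin 5) ℤ) = 0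
        simp
      have e2 : f 3 = fun _ ↦ h := funext h3
      change HasDerivAt (f 3) (lam * aeval (fun j ↦ f j u) (tdv 3)) u
      rw [e, e2, mul_zero]
      exact hasDerivAt_const _ _
    · have e : aeval (fun j ↦ f j u) (tdv 4) = 0 := by
        change aeval (fun j ↦ f j u) (0 : MvPolynomial (Fin 5) ℤ) = 0
        simp
      have e2 : f 4 = fun _ ↦ kap := funext h4
      change HasDerivAt (f 4) (lam * aeval (fun j ↦ f j u) (tdv 4)) u
      rw [e, e2, mul_zero]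
      exact hasDerivAt_const _ _
  have hM : ∀ u ∈ Metric.ball (0 : ℂ) ε,
      HasDerivAt b.A (lam * (b.A u * aeval (fun j ↦ f j u) (X 2 : MvPolynomial (Fin 5) ℤ))) u := by
    intro u hu
    have hu' : ‖u‖ < ε := by simpa using hu
    have h5 := hb.hA u hu'
    rw [hb.hmu] at h5
    have h6 : deriv b.A u = lam * (b.A u * Yf u) := by
      rw [← h5, ← mul_assoc, mul_inv_cancel₀ hb.hlam, one_mul]
    rw [aeval_X, h2, ← h6]
    exact (b.dA u).hasDerivAt
  have h7 := iteratedDeriv_TD (f := f) (m := b.A) (lam := lam) tdv (X 2) (Metric.ball 0 ε)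
    Metric.isOpen_ball hD hM 1 r 0 (Metric.mem_ball_self hb.hε)
  have h8 : (fun v ↦ b.A v * aeval (fun j ↦ f j v) (1 : MvPolynomial (Fin 5) ℤ)) = b.A := by
    funext v
    simp
  have h9 : (fun j ↦ f j 0) = (![ep, 0, 0, h, kap] : Fin 5 → ℂ) := by
    funext j
    fin_cases j
    · exact (h0 0).trans hb.X0
    · exact (h1 0).trans hb.X10
    · exact (h2 0).trans hb.Y0
    · exact h3 0
    · exact h4 0
  rw [h8, h9, b.A0, one_mul] at h7
  exact h7

theorem at5_bd (r : ℕ) : (at5 r).totalDegree ≤ r ∧ nrm (at5 r) ≤ (7 * r + 1 : ℝ) ^ r := by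
  have hg : (X 2 : MvPolynomial (Fin 5) ℤ).totalDegree ≤ 1 := by rw [totalDegree_X]
  constructor
  · have h := deg_TD_iter tdv (X 2) 1 At_deg hg 1 r
    rw [totalDegree_one] at h
    unfold at5
    omega
  · have h := nrm_TD_iter tdv (X 2) 1 At_deg hg 7 1 (by norm_num) At_nrm
      (by rw [H32.T3.nrm_X]) 1 r
    rw [totalDegree_one, H32.T3.nrm_one] at h
    unfold at5
    refine h.trans (le_of_eq ?_)
    push_cast
    ring

end AZ
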