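import Pool.Agent.H32.CZ.Pk
import Pool.Agent.H32.CZ.Pa
import Pool.Agent.H32.CZ.Xd

/-!
# MP_ede373: approximation of one transcendental number

`line`: a transcendental number has approximations by algebraic numbers of every exponent `κ < 2`.
-/

set_option autoImplicit false

namespace AZ

open Polynomial CZ

theorem line_poly (θ : ℂ) : ∃ T0 : ℕ, ∀ T : ℕ, T0 ≤ T → ∃ f : ℤ[X], f ≠ 0 ∧
    (f.natDegree : ℝ) + Real.log (mah f) ≤ 4 * T ∧
    ‖aeval θ f‖ ≤ Real.exp (-((T : ℝ) ^ 2 / 3)) := by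
  obtain ⟨B, hBd⟩ : ∃ B : ℝ, B = max 1 ‖θ‖ := ⟨_, rfl⟩
  have hB1 : 1 ≤ B := by rw [hBd]; exact le_max_left _ _
  have hBt : ‖θ‖ ≤ B := by rw [hBd]; exact le_max_right _ _
  have hB0 : ‖(0 : ℂ)‖ ≤ B := by rw [norm_zero]; linarith
  have hb : 0 ≤ Real.log B := Real.log_nonneg hB1
  refine ⟨⌈60 + 12 * Real.log B⌉₊ + 1, fun T hT => ?_⟩
  have hT1 : 1 ≤ T := by omega
  have hTr : 60 + 12 * Real.log B ≤ T := by
    refine (Nat.le_ceil _).trans ?_
    exact_mod_cast (Nat.le_succ _).trans hT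
  have hT1r : (1 : ℝ) ≤ T := by exact_mod_cast hT1
  have hT0r : (0 : ℝ) < T := by linarith
  obtain ⟨P, hP0, hPd, hPX, hPc, hPv⟩ := pigeon θ 0 B hB1 hBt hB0 T 1 (3 ^ T) hT1 Nat.one_pos
    (by positivity)
  have hPC : P = C (P.coeff 0) := eq_C_of_natDegree_eq_zero (by omega)
  have hf0 : P.coeff 0 ≠ 0 := by
    intro h
    apply hP0
    rw [hPC, h, C_0]
  have hlog3 : Real.log 3 ≤ 2 := by
    have := Real.log_le_sub_one_of_pos (show (0 : ℝ) < 3 by norm_num)
    linarith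
  have hlog31 : 1 ≤ Real.log 3 := by
    rw [Real.le_log_iff_exp_le (by norm_num)]
    exact Real.exp_one_lt_d9.le.trans (by norm_num)
  have hlogT : Real.log T ≤ T := (Real.log_le_sub_one_of_pos hT0r).trans (by linarith)
  refine ⟨P.coeff 0, hf0, ?_, ?_⟩
  · have h1 : nr (P.coeff 0) ≤ T * ((3 ^ T : ℕ) : ℝ) := by
      rw [Nb_nr (hPX 0)]
      refine (Finset.sum_le_card_nsmul _ _ _ fun i _ => hPc 0 i).trans ?_
      rw [Finset.card_range, nsmul_eq_mul]
    have h2 : 1 ≤ mah (P.coeff 0) := one_le_mah hf0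
    have h3 : Real.log (mah (P.coeff 0)) ≤ Real.log T + T * Real.log 3 := by
      have h4 := Real.log_le_log (by linarith) ((mah_le_nr _).trans h1)
      rwa [Real.log_mul (by positivity) (by positivity), Nat.cast_pow, Real.log_pow,
        Nat.cast_ofNat] at h4
    have h4 : ((P.coeff 0).natDegree : ℝ) ≤ T := by exact_mod_cast (hPX 0).le
    nlinarith
  · have hv : evH θ 0 P = aeval θ (P.coeff 0) := by
      conv_lhs => rw [hPC]
      exact Pk_evH_C _ _ _
    rw [hv] at hPv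
    refine hPv.trans ?_
    have e0 : (T * 1 : ℕ) = T := mul_one T
    have e1 : ((3 ^ T : ℕ) : ℝ) ^ (-((T * 1 : ℕ) : ℝ) / 2) = Real.exp (-((T : ℝ) ^ 2 * Real.log 3 / 2)) := by
      rw [e0, Real.rpow_def_of_pos (by positivity), Nat.cast_pow, Real.log_pow, Nat.cast_ofNat]
      congr 1
      ring
    have e2 : B ^ (T + 1) = Real.exp ((T + 1) * Real.log B) := by
      rw [← Real.rpow_natCast, Real.rpow_def_of_pos (by linarith)]
      congr 1
      push_cast
      ring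
    have e3 : (8 : ℝ) * (T * (1 : ℕ) * (3 ^ T : ℕ)) ≤ Real.exp (8 + T + 2 * T) := by
      have h8 : (8 : ℝ) ≤ Real.exp 8 := by
        have := Real.add_one_le_exp (8 : ℝ)
        linarith
      have hTe : (T : ℝ) ≤ Real.exp T := by
        have := Real.add_one_le_exp (T : ℝ)
        linarith
      have h3e : ((3 ^ T : ℕ) : ℝ) ≤ Real.exp (2 * T) := by
        have h5 : (3 : ℝ) ≤ Real.exp 2 := by
          have := Real.add_one_le_exp (2 : ℝ)
          linarith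
        calc ((3 ^ T : ℕ) : ℝ) = 3 ^ T := by push_cast; rfl
          _ ≤ Real.exp 2 ^ T := pow_le_pow_left₀ (by norm_num) h5 T
          _ = Real.exp (2 * T) := by rw [← Real.exp_nat_mul]; congr 1; ring
      rw [Real.exp_add, Real.exp_add, Nat.cast_one, mul_one, mul_assoc (Real.exp 8)]
      gcongr
    rw [e1, e2]
    calc _ ≤ Real.exp (8 + T + 2 * T) * Real.exp ((T + 1) * Real.log B) *
          Real.exp (-((T : ℝ) ^ 2 * Real.log 3 / 2)) := by gcongr
      _ = Real.exp (8 + T + 2 * T + (T + 1) * Real.log B + -((T : ℝ) ^ 2 * Real.log 3 / 2)) := by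
        rw [Real.exp_add (8 + T + 2 * T + (T + 1) * Real.log B), Real.exp_add (8 + T + 2 * T)]
      _ ≤ _ := by
        apply Real.exp_le_exp.2
        have h1 : (T : ℝ) ^ 2 ≤ (T : ℝ) ^ 2 * Real.log 3 := le_mul_of_one_le_right (by positivity) hlog31
        have h2 : (60 + 12 * Real.log B) * T ≤ (T : ℝ) ^ 2 := by
          rw [pow_two]
          exact mul_le_mul_of_nonneg_right hTr hT0r.le
        have h3 : Real.log B ≤ T * Real.log B := le_mul_of_one_le_left hb hT1r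
        nlinarith

theorem line_local (θ : ℂ) (hθ : Transcendental ℚ θ) (r : ℤ[X]) (hr : Irreducible r)
    (hn : 0 < r.natDegree) :
    ∃ W : ℝ, ApprAt ![θ] (r.natDegree + Real.log (mah r)) W ∧ -Real.log ‖aeval θ r‖ ≤ W := by
  classical
  have hr0 : r ≠ 0 := hr.ne_zero
  have hprim := hr.isPrimitive hn.ne'
  have hrQ : Irreducible (r.map (Int.castRingHom ℚ)) :=
    (IsPrimitive.Int.irreducible_iff_irreducible_map_cast hprim).1 hr
  obtain ⟨E, iF, iN, iA, ρ, hρ, -, hfin, -⟩ := adjoin_root_nf ℚ _ hrQ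
  have hndQ : (r.map (Int.castRingHom ℚ)).natDegree = r.natDegree :=
    natDegree_map_eq_of_injective (RingHom.injective_int _) r
  rw [hndQ, Module.finrank_self, mul_one] at hfin
  have hy : aeval ρ r = 0 := by
    rw [aeval_def, eval₂_map] at hρ
    rw [aeval_def, ← hρ]
    congr 1
    exact RingHom.ext_int _ _
  have hroots := Hc_roots (Ω := ℂ) r hr ρ hy hfin.symm
  have hhE : hE ρ ≤ Real.log (mah r) := hE_root r hr ρ hy hfin.symm
  have hmah : 1 ≤ mah r := one_le_mah hr0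
  have hlog0 : 0 ≤ Real.log (mah r) := Real.log_nonneg hmah
  have hpos : ∀ φ : E →+* ℂ, 0 < ‖θ - φ ρ‖ := by
    intro φ
    rw [norm_pos_iff, sub_ne_zero]
    intro h
    apply hθ
    rw [h]
    have h1 : IsAlgebraic ℤ (φ ρ) := by
      refine ⟨r, hr0, ?_⟩
      have h2 : φ (aeval ρ r) = 0 := by rw [hy, map_zero]
      rw [aeval_def, hom_eval₂] at h2
      rw [aeval_def, ← h2]
      congr 1
      exact RingHom.ext_int _ _
    exact (IsFractionRing.isAlgebraic_iff ℤ ℚ ℂ).1 h1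
  set S : Finset (E →+* ℂ) := Finset.univ.filter fun φ => ‖θ - φ ρ‖ ≤ 1 with hS
  refine ⟨∑ φ ∈ S, (-Real.log ‖θ - φ ρ‖), ?_, ?_⟩
  · refine ⟨E, iF, iN, ![ρ], S, fun φ => -Real.log ‖θ - φ ρ‖, ?_, ?_, ?_, le_refl _⟩
    · rw [hfin]
      linarith
    · intro i
      fin_cases i
      show hE ρ ≤ _
      have : (0 : ℝ) ≤ r.natDegree := Nat.cast_nonneg _
      linarith
    · intro φ hφ
      have hφ1 : ‖θ - φ ρ‖ ≤ 1 := (Finset.mem_filter.1 hφ).2
      have hφ0 := hpos φ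
      refine ⟨?_, ?_⟩
      · have := Real.log_nonpos hφ0.le hφ1
        show 0 ≤ -Real.log ‖θ - φ ρ‖
        linarith
      · intro i
        fin_cases i
        show ‖φ ρ - θ‖ ≤ Real.exp (-(-Real.log ‖θ - φ ρ‖))
        rw [neg_neg, Real.exp_log hφ0, norm_sub_rev]
  · have hprod : aeval θ r = (r.leadingCoeff : ℂ) * ∏ φ : E →+* ℂ, (θ - φ ρ) := by
      have h1 := (IsAlgClosed.splits (r.map (Int.castRingHom ℂ))).eval_eq_prod_roots θ
      rw [hroots] at h1
      have h2 : (r.map (Int.castRingHom ℂ)).leadingCoeff = (r.leadingCoeff : ℂ) := by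
        rw [leadingCoeff_map_of_injective (RingHom.injective_int _)]
        rfl
      rw [h2, Multiset.map_map, eval_map] at h1
      rw [aeval_def]
      exact h1
    have hlc : (1 : ℝ) ≤ ‖(r.leadingCoeff : ℂ)‖ := by
      have h1 : r.leadingCoeff ≠ 0 := leadingCoeff_ne_zero.2 hr0
      have h2 : (1 : ℤ) ≤ |r.leadingCoeff| := Int.one_le_abs h1
      rw [Complex.norm_intCast]
      exact_mod_cast h2
    rw [hprod, norm_mul, norm_prod, Real.log_mul (by positivity) (Finset.prod_ne_zero_iff.2 fun φ _ => (hpos φ).ne'),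
      Real.log_prod fun φ _ => (hpos φ).ne']
    have h1 : 0 ≤ Real.log ‖(r.leadingCoeff : ℂ)‖ := Real.log_nonneg hlc
    have h6 : ∑ φ : E →+* ℂ, (-Real.log ‖θ - φ ρ‖) ≤ ∑ φ ∈ S, (-Real.log ‖θ - φ ρ‖) := by
      rw [← Finset.sum_filter_add_sum_filter_not Finset.univ (fun φ => ‖θ - φ ρ‖ ≤ 1)]
      have h7 : ∑ φ ∈ Finset.univ.filter (fun φ : E →+* ℂ => ¬ ‖θ - φ ρ‖ ≤ 1), (-Real.log ‖θ - φ ρ‖) ≤ 0 := by
        apply Finset.sum_nonpos
        intro φ hφ
        have h8 := (Finset.mem_filter.1 hφ).2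
        have h9 := Real.log_nonneg (not_le.1 h8).le
        linarith
      linarith
    rw [Finset.sum_neg_distrib] at h6
    linarith

theorem line (θ : ℂ) (hθ : Transcendental ℚ θ) (κ : ℝ) (hκ : κ < 2) : Appr ![θ] κ := by
  have hae : ∀ f : ℤ[X], f ≠ 0 → aeval θ f ≠ 0 := by
    intro f hf h
    exact hθ ((IsFractionRing.isAlgebraic_iff ℤ ℚ ℂ).1 ⟨f, hf, h⟩)
  obtain ⟨T0, hT0⟩ := line_poly θ
  obtain ⟨κ', hκ'⟩ : ∃ κ' : ℝ, κ' = max κ 1 := ⟨_, rfl⟩
  have hκκ : κ ≤ κ' := by rw [hκ']; exact le_max_left _ _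
  have h1κ : 1 ≤ κ' := by rw [hκ']; exact le_max_right _ _
  have hκ2 : κ' < 2 := by rw [hκ']; exact max_lt hκ (by norm_num)
  intro U0
  obtain ⟨U1, hU1⟩ := xd_pow (12 * (4 : ℝ) ^ (κ' - 1)) (κ' - 1) (by positivity) (by linarith)
  obtain ⟨T, hTT⟩ : ∃ T : ℕ, T = max (max T0 ⌈U1⌉₊) (max ⌈12 * U0⌉₊ 1) := ⟨_, rfl⟩
  have hTT0 : T0 ≤ T := by rw [hTT]; exact (le_max_left _ _).trans (le_max_left _ _)
  have hTU1 : U1 ≤ T := by
    refine (Nat.le_ceil _).trans ?_
    rw [hTT]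
    exact_mod_cast (le_max_right _ _).trans (le_max_left _ _)
  have hTU0 : 12 * U0 ≤ T := by
    refine (Nat.le_ceil _).trans ?_
    rw [hTT]
    exact_mod_cast (le_max_left _ _).trans (le_max_right _ _)
  have hT1 : 1 ≤ T := by rw [hTT]; exact (le_max_right _ _).trans (le_max_right _ _)
  have hT1r : (1 : ℝ) ≤ T := by exact_mod_cast hT1
  have hT0r : (0 : ℝ) < T := by linarith
  obtain ⟨f, hf0, hfs, hfv⟩ := hT0 T hTT0
  obtain ⟨r, hr, hn, -, hsz, hV⟩ := good_factor f hf0 θ ((T : ℝ) ^ 2 / 3) (by positivity) (hae f hf0) hfv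
  obtain ⟨W, hA, hW⟩ := line_local θ hθ r hr hn
  obtain ⟨s, hs⟩ : ∃ s : ℝ, s = r.natDegree + Real.log (mah r) := ⟨_, rfl⟩
  rw [← hs] at hA hsz hV
  have hmah : 1 ≤ mah r := one_le_mah hr.ne_zero
  have hlog0 : 0 ≤ Real.log (mah r) := Real.log_nonneg hmah
  have hn1 : (1 : ℝ) ≤ r.natDegree := by exact_mod_cast hn
  have hs1 : 1 ≤ s := by linarith
  have hs4 : s ≤ 4 * T := hsz.trans hfs
  have hW0 : T * s ≤ 12 * W := by
    have h0 : 0 < (T : ℝ) ^ 2 / 3 * s := by positivity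
    have h2 : 0 < -Real.log ‖aeval θ r‖ := by
      by_contra hcon
      have h3 : -Real.log ‖aeval θ r‖ ≤ 0 := not_lt.1 hcon
      have h4 : 0 ≤ (f.natDegree : ℝ) + Real.log (mah f) := by linarith
      have h5 := mul_nonpos_of_nonneg_of_nonpos h4 h3
      linarith
    have h3 : (T : ℝ) ^ 2 / 3 * s ≤ 4 * T * (-Real.log ‖aeval θ r‖) :=
      hV.trans (mul_le_mul_of_nonneg_right hfs h2.le)
    have h4 : (T : ℝ) ^ 2 / 3 * s ≤ 4 * T * W :=
      h3.trans (mul_le_mul_of_nonneg_left hW (by positivity))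
    have h5 : (T : ℝ) * (T * s) ≤ T * (12 * W) := by nlinarith
    exact le_of_mul_le_mul_left h5 hT0r
  refine ⟨s, W, hs1, ?_, ?_, hA⟩
  · have h1 : (T : ℝ) ≤ T * s := le_mul_of_one_le_right hT0r.le hs1
    linarith
  · have h1 : s ^ κ ≤ s ^ κ' := Real.rpow_le_rpow_of_exponent_le hs1 hκκ
    refine h1.trans ?_
    have h2 : s ^ κ' = s * s ^ (κ' - 1) := by
      rw [← Real.rpow_one_add' (by linarith) (by linarith)]
      congr 1
      ring
    have h3 : s ^ (κ' - 1) ≤ (4 : ℝ) ^ (κ' - 1) * (T : ℝ) ^ (κ' - 1) := by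
      rw [← Real.mul_rpow (by norm_num) hT0r.le]
      exact Real.rpow_le_rpow (by linarith) hs4 (by linarith)
    have h4 := hU1 T hTU1
    have h5 : 12 * (s * s ^ (κ' - 1)) ≤ s * T := by
      calc 12 * (s * s ^ (κ' - 1)) ≤ 12 * (s * ((4 : ℝ) ^ (κ' - 1) * (T : ℝ) ^ (κ' - 1))) := by gcongr
        _ = s * (12 * (4 : ℝ) ^ (κ' - 1) * (T : ℝ) ^ (κ' - 1)) := by ring
        _ ≤ s * T := mul_le_mul_of_nonneg_left h4 (by linarith)
    rw [h2]
    linarith

end AZ
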