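import Pool.Agent.H32.AZ.A0

/-!
# MP_ede373, all algebraic points, row Fb: size of `FP κ n`

`nusP s`, `bsP s`: degree `≤ 2`, `nrm ≤ c` with `c = card ι`. The term `i ≤ n` of `cfP κ n s`: if `i ≤ κ` its degree is
`≤ 2 (κ - i) + i + 2 (n - i) ≤ 2 κ + 2 n`; if `i > κ` then `choose = 0` but the bound `i + 2 (n - i) ≤ 2 n` holds anyway.
`nrm ≤ choose κ i * n^i * c^(κ - i) c^(n - i) ≤ 2^κ (n+1)^n (c+1)^(κ + n)`. So `nrm (cfP κ n s) ≤ (n + 1) 2^κ (n+1)^n (c+1)^(κ+n)`.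
Product over `s`: with `T = ∑ κ_s + ∑ n_s`: degree `≤ 2 T`, `nrm ≤ ∏_s (n_s + 1)^(n_s + 1) 2^(κ_s) (c+1)^(κ_s + n_s) ≤
(T + 1)^(T + card S) 2^T (c+1)^T ≤ exp (C (T + 1) log (T + 2))` with `C = 2 + card S + (log 2 + log (c + 1))/log 2`, say.
(`nrm_sum_le`, `nrm_mul_le`, `nrm_pow_le`, `nrm_prod_le`, `nrm_C`, `nrm_X` in `T3/Ht.lean`; `Nat.descFactorial_le_pow`,
`Nat.choose_le_two_pow`.)
-/

set_option autoImplicit false

namespace AZ

open MvPolynomial CZ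
open H32.T3 (nrm)

section

variable {S ι : Type} [Fintype S] [DecidableEq S] [Fintype ι] [DecidableEq ι]

private theorem Fb_prod_le {α σ : Type*} (s : Finset α) (P : α → MvPolynomial σ ℤ) :
    nrm (∏ i ∈ s, P i) ≤ ∏ i ∈ s, nrm (P i) := by
  classical
  induction s using Finset.induction_on with
  | empty => simp [H32.T3.nrm_one]
  | insert i t hi ih =>
    rw [Finset.prod_insert hi, Finset.prod_insert hi]
    exact (H32.T3.nrm_mul_le _ _).trans
      (mul_le_mul_of_nonneg_left ih (H32.T3.nrm_nonneg _))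

private theorem Fb_sum_deg (f : ι → Vs S ι) :
    (∑ j, X (Sum.inl j) * X (Sum.inr (f j)) : MvPolynomial (ι ⊕ Vs S ι) ℤ).totalDegree ≤ 2 := by
  refine totalDegree_finsetSum_le fun j _ ↦ ?_
  refine (totalDegree_mul _ _).trans ?_
  rw [totalDegree_X, totalDegree_X]

private theorem Fb_sum_nrm (f : ι → Vs S ι) :
    nrm (∑ j, X (Sum.inl j) * X (Sum.inr (f j)) : MvPolynomial (ι ⊕ Vs S ι) ℤ)
      ≤ (Fintype.card ι : ℝ) := by
  refine (H32.T3.nrm_sum_le _ _).trans ?_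
  have h : ∀ j ∈ (Finset.univ : Finset ι),
      nrm (X (Sum.inl j) * X (Sum.inr (f j)) : MvPolynomial (ι ⊕ Vs S ι) ℤ) ≤ 1 := by
    intro j _
    refine (H32.T3.nrm_mul_le _ _).trans ?_
    rw [H32.T3.nrm_X, H32.T3.nrm_X, one_mul]
  refine (Finset.sum_le_sum h).trans ?_
  simp

private theorem Fb_cf_deg (κ n : ℕ) (s : S) :
    (cfP κ n s : MvPolynomial (ι ⊕ Vs S ι) ℤ).totalDegree ≤ 2 * κ + 2 * n := by
  unfold cfP
  refine totalDegree_finsetSum_le fun i hi ↦ ?_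
  have hi' : i ≤ n := Nat.lt_succ_iff.1 (Finset.mem_range.1 hi)
  have h1 : (nusP s : MvPolynomial (ι ⊕ Vs S ι) ℤ).totalDegree ≤ 2 := Fb_sum_deg _
  have h2 : (bsP s : MvPolynomial (ι ⊕ Vs S ι) ℤ).totalDegree ≤ 2 := Fb_sum_deg _
  have h3 : (nusP s ^ (κ - i) : MvPolynomial (ι ⊕ Vs S ι) ℤ).totalDegree ≤ (κ - i) * 2 :=
    (totalDegree_pow _ _).trans (Nat.mul_le_mul_left _ h1)
  have h4 : (bsP s ^ (n - i) : MvPolynomial (ι ⊕ Vs S ι) ℤ).totalDegree ≤ (n - i) * 2 :=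
    (totalDegree_pow _ _).trans (Nat.mul_le_mul_left _ h2)
  have h5 : (X (Sum.inr (Sum.inl 5)) ^ i : MvPolynomial (ι ⊕ Vs S ι) ℤ).totalDegree ≤ i * 1 :=
    (totalDegree_pow _ _).trans (Nat.mul_le_mul_left _ (by rw [totalDegree_X]))
  refine (totalDegree_mul _ _).trans ?_
  rw [totalDegree_C, zero_add]
  refine (totalDegree_mul _ _).trans ?_
  refine (Nat.add_le_add ((totalDegree_mul _ _).trans (Nat.add_le_add h3 h5)) h4).trans ?_
  omega

private theorem Fb_cf_nrm (κ n : ℕ) (s : S) :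
    nrm (cfP κ n s : MvPolynomial (ι ⊕ Vs S ι) ℤ)
      ≤ ((n : ℝ) + 1) ^ (n + 1) * 2 ^ κ * ((Fintype.card ι : ℝ) + 1) ^ (κ + n) := by
  unfold cfP
  set c : ℝ := (Fintype.card ι : ℝ) with hc
  have hc0 : 0 ≤ c := by positivity
  have h1 : nrm (nusP s : MvPolynomial (ι ⊕ Vs S ι) ℤ) ≤ c + 1 :=
    (Fb_sum_nrm _).trans (by linarith)
  have h2 : nrm (bsP s : MvPolynomial (ι ⊕ Vs S ι) ℤ) ≤ c + 1 :=
    (Fb_sum_nrm _).trans (by linarith)
  refine (H32.T3.nrm_sum_le _ _).trans ?_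
  have key : ∀ i ∈ Finset.range (n + 1),
      nrm (C ((κ.choose i * n.descFactorial i : ℕ) : ℤ) *
        (nusP s ^ (κ - i) * X (Sum.inr (Sum.inl 5)) ^ i * bsP s ^ (n - i)) :
          MvPolynomial (ι ⊕ Vs S ι) ℤ)
        ≤ (2 : ℝ) ^ κ * ((n : ℝ) + 1) ^ n * ((c + 1) ^ κ * (c + 1) ^ n) := by
    intro i hi
    have hi' : i ≤ n := Nat.lt_succ_iff.1 (Finset.mem_range.1 hi)
    have h3 : nrm (nusP s ^ (κ - i) : MvPolynomial (ι ⊕ Vs S ι) ℤ) ≤ (c + 1) ^ κ := by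
      refine (H32.T3.nrm_pow_le _ _).trans ((pow_le_pow_left₀ (H32.T3.nrm_nonneg _) h1 _).trans ?_)
      exact pow_le_pow_right₀ (by linarith) (by omega)
    have h4 : nrm (bsP s ^ (n - i) : MvPolynomial (ι ⊕ Vs S ι) ℤ) ≤ (c + 1) ^ n := by
      refine (H32.T3.nrm_pow_le _ _).trans ((pow_le_pow_left₀ (H32.T3.nrm_nonneg _) h2 _).trans ?_)
      exact pow_le_pow_right₀ (by linarith) (by omega)
    have h5 : nrm (X (Sum.inr (Sum.inl 5)) ^ i : MvPolynomial (ι ⊕ Vs S ι) ℤ) ≤ 1 := by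
      refine (H32.T3.nrm_pow_le _ _).trans ?_
      rw [H32.T3.nrm_X, one_pow]
    have h6 : nrm (C ((κ.choose i * n.descFactorial i : ℕ) : ℤ) : MvPolynomial (ι ⊕ Vs S ι) ℤ)
        ≤ (2 : ℝ) ^ κ * ((n : ℝ) + 1) ^ n := by
      rw [H32.T3.nrm_C]
      have e : |(((κ.choose i * n.descFactorial i : ℕ) : ℤ) : ℝ)|
          = ((κ.choose i : ℕ) : ℝ) * ((n.descFactorial i : ℕ) : ℝ) := by
        rw [abs_of_nonneg (by positivity)]
        push_cast
        ring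
      rw [e]
      have a1 : ((κ.choose i : ℕ) : ℝ) ≤ 2 ^ κ := by
        exact_mod_cast Nat.choose_le_two_pow κ i
      have a2 : ((n.descFactorial i : ℕ) : ℝ) ≤ ((n : ℝ) + 1) ^ n := by
        have b1 : n.descFactorial i ≤ (n + 1) ^ n :=
          (Nat.descFactorial_le_pow n i).trans ((Nat.pow_le_pow_left (Nat.le_succ n) i).trans
            (Nat.pow_le_pow_right (Nat.succ_pos n) hi'))
        exact_mod_cast b1
      exact mul_le_mul a1 a2 (by positivity) (by positivity)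
    refine (H32.T3.nrm_mul_le _ _).trans (mul_le_mul h6 ?_ (H32.T3.nrm_nonneg _) (by positivity))
    refine (H32.T3.nrm_mul_le _ _).trans (mul_le_mul ?_ h4 (H32.T3.nrm_nonneg _) (by positivity))
    refine (H32.T3.nrm_mul_le _ _).trans ?_
    calc _ ≤ (c + 1) ^ κ * 1 := mul_le_mul h3 h5 (H32.T3.nrm_nonneg _) (by positivity)
      _ = _ := mul_one _
  refine (Finset.sum_le_sum key).trans ?_
  rw [Finset.sum_const, Finset.card_range, nsmul_eq_mul, pow_add (c + 1) κ n, pow_succ]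
  push_cast
  apply le_of_eq
  ring

private theorem Fb_cf_exp (κ n T : ℕ) (s : S) (hn : n ≤ T) :
    nrm (cfP κ n s : MvPolynomial (ι ⊕ Vs S ι) ℤ)
      ≤ Real.exp ((((n : ℝ) + 1) + κ + (κ + n) * (Real.log ((Fintype.card ι : ℝ) + 1) / Real.log 2))
        * Real.log ((T : ℝ) + 2)) := by
  refine (Fb_cf_nrm κ n s).trans ?_
  have hc0 : (0 : ℝ) ≤ (Fintype.card ι : ℝ) := by positivity
  set c : ℝ := (Fintype.card ι : ℝ) with hc
  have hl2 : 0 < Real.log 2 := Real.log_pos (by norm_num)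
  have hT : (0 : ℝ) ≤ (T : ℝ) := by positivity
  have hnT : (n : ℝ) ≤ (T : ℝ) := by exact_mod_cast hn
  have hL : Real.log 2 ≤ Real.log ((T : ℝ) + 2) := Real.log_le_log (by norm_num) (by linarith)
  have hL1 : Real.log ((n : ℝ) + 1) ≤ Real.log ((T : ℝ) + 2) :=
    Real.log_le_log (by positivity) (by linarith)
  have hlc : 0 ≤ Real.log (c + 1) := Real.log_nonneg (by linarith)
  have e1 : ((n : ℝ) + 1) ^ (n + 1) = Real.exp (((n : ℝ) + 1) * Real.log ((n : ℝ) + 1)) := by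
    rw [mul_comm, Real.exp_mul, Real.exp_log (by positivity)]
    exact_mod_cast (Real.rpow_natCast ((n : ℝ) + 1) (n + 1)).symm
  have e2 : (2 : ℝ) ^ κ = Real.exp (κ * Real.log 2) := by
    rw [Real.exp_nat_mul, Real.exp_log (by norm_num)]
  have e3 : (c + 1) ^ (κ + n) = Real.exp ((κ + n) * Real.log (c + 1)) := by
    have : ((κ : ℝ) + n) = ((κ + n : ℕ) : ℝ) := by push_cast; ring
    rw [this, Real.exp_nat_mul, Real.exp_log (by linarith)]
  rw [e1, e2, e3, ← Real.exp_add, ← Real.exp_add, Real.exp_le_exp]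
  have a1 : ((n : ℝ) + 1) * Real.log ((n : ℝ) + 1) ≤ ((n : ℝ) + 1) * Real.log ((T : ℝ) + 2) :=
    mul_le_mul_of_nonneg_left hL1 (by positivity)
  have a2 : (κ : ℝ) * Real.log 2 ≤ κ * Real.log ((T : ℝ) + 2) :=
    mul_le_mul_of_nonneg_left hL (by positivity)
  have a3 : ((κ : ℝ) + n) * Real.log (c + 1)
      ≤ (κ + n) * (Real.log (c + 1) / Real.log 2) * Real.log ((T : ℝ) + 2) := by
    rw [mul_assoc]
    refine mul_le_mul_of_nonneg_left ?_ (by positivity)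
    calc Real.log (c + 1) = Real.log (c + 1) / Real.log 2 * Real.log 2 := by
          field_simp
      _ ≤ _ := mul_le_mul_of_nonneg_left hL (by positivity)
  calc _ ≤ ((n : ℝ) + 1) * Real.log ((T : ℝ) + 2) + κ * Real.log ((T : ℝ) + 2)
        + (κ + n) * (Real.log (c + 1) / Real.log 2) * Real.log ((T : ℝ) + 2) :=
        add_le_add (add_le_add a1 a2) a3
    _ = _ := by ring

end

theorem FP_bd (S ι : Type) [Fintype S] [DecidableEq S] [Fintype ι] [DecidableEq ι] :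
    ∃ C : ℝ, 1 ≤ C ∧ ∀ κ n : S → ℕ,
      (FP κ n : MvPolynomial (ι ⊕ Vs S ι) ℤ).totalDegree ≤ 2 * (∑ s, κ s + ∑ s, n s) ∧
      nrm (FP κ n : MvPolynomial (ι ⊕ Vs S ι) ℤ) ≤
        Real.exp (C * (∑ s, κ s + ∑ s, n s + 1) * Real.log (∑ s, κ s + ∑ s, n s + 2)) := by
  have hl2 : 0 < Real.log 2 := Real.log_pos (by norm_num)
  have hlc : 0 ≤ Real.log ((Fintype.card ι : ℝ) + 1) :=
    Real.log_nonneg (by have : (0 : ℝ) ≤ (Fintype.card ι : ℝ) := by positivity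
                        linarith)
  have hd : 0 ≤ Real.log ((Fintype.card ι : ℝ) + 1) / Real.log 2 := by positivity
  set d : ℝ := Real.log ((Fintype.card ι : ℝ) + 1) / Real.log 2 with hdd
  refine ⟨2 + (Fintype.card S : ℝ) + d, by have : (0 : ℝ) ≤ (Fintype.card S : ℝ) := by positivity
                                           linarith, fun κ n ↦ ⟨?_, ?_⟩⟩
  · unfold FP
    refine (totalDegree_finsetProd _ _).trans ?_
    refine (Finset.sum_le_sum fun s _ ↦ Fb_cf_deg (κ s) (n s) s).trans ?_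
    rw [Finset.sum_add_distrib, ← Finset.mul_sum, ← Finset.mul_sum]
    omega
  · unfold FP
    refine (Fb_prod_le _ _).trans ?_
    have h1 : ∀ s ∈ (Finset.univ : Finset S), nrm (cfP (κ s) (n s) s : MvPolynomial (ι ⊕ Vs S ι) ℤ)
        ≤ Real.exp ((((n s : ℝ) + 1) + κ s + (κ s + n s) * d)
          * Real.log (((∑ s, κ s + ∑ s, n s : ℕ) : ℝ) + 2)) := fun s _ ↦
      Fb_cf_exp (κ s) (n s) _ s ((Finset.single_le_sum (f := n) (fun _ _ ↦ Nat.zero_le _)
        (Finset.mem_univ s)).trans (Nat.le_add_left _ _))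
    refine (Finset.prod_le_prod (fun _ _ ↦ H32.T3.nrm_nonneg _) h1).trans ?_
    rw [← Real.exp_sum, Real.exp_le_exp, ← Finset.sum_mul]
    have hK : (0 : ℝ) ≤ ((∑ s, κ s : ℕ) : ℝ) := by positivity
    have hN : (0 : ℝ) ≤ ((∑ s, n s : ℕ) : ℝ) := by positivity
    have hS : (0 : ℝ) ≤ (Fintype.card S : ℝ) := by positivity
    have hsum : ∑ s, (((n s : ℝ) + 1) + κ s + (κ s + n s) * d)
        = ((∑ s, n s : ℕ) : ℝ) + Fintype.card S + ((∑ s, κ s : ℕ) : ℝ)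
          + (((∑ s, κ s : ℕ) : ℝ) + ((∑ s, n s : ℕ) : ℝ)) * d := by
      rw [Finset.sum_add_distrib, Finset.sum_add_distrib, Finset.sum_add_distrib, ← Finset.sum_mul,
        Finset.sum_add_distrib]
      push_cast
      simp
    have hL : 0 ≤ Real.log (((∑ s, κ s : ℕ) : ℝ) + ((∑ s, n s : ℕ) : ℝ) + 2) :=
      Real.log_nonneg (by linarith)
    rw [hsum]
    push_cast at hK hN hL ⊢
    refine mul_le_mul_of_nonneg_right ?_ hL
    nlinarith [mul_nonneg hK hS, mul_nonneg hN hS, mul_nonneg hK hd, mul_nonneg hN hd]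

end AZ
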