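import Pool.Agent.H32.AZ.A0

/-!
# MP_ede373, all algebraic points, row Fv: the value of `FP κ n`

`g = Sum.elim (2 π i m_j / lam) (cstV ..)`. `aeval g (nusP s) = ∑_j (2πi m_j/lam) nus j s = (2πi/lam) K.st m s`;
`aeval g (bsP s) = (2πi/lam) K.bs m s`; `aeval g (X (inr (inl 5))) = 2πi/lam^2`. So with `α = K.st m s`, `b = K.bs m s`:
`aeval g (cfP κ n s) = ∑_{i ≤ n} choose κ i * descFactorial n i * (2πi/lam)^(κ-i) α^(κ-i) (2πi/lam^2)^i (2πi/lam)^(n-i) b^(n-i)`. For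
`i ≤ κ` (otherwise `choose = 0`) and `i ≤ n` the powers combine to `(2πi/lam)^κ lam^(-n) (2πi)^(n-i)`, and
`descFactorial n i = n! / (n-i)!` (`Nat.factorial_mul_descFactorial`), so this is
`n! (2πi/lam)^κ (lam^n)⁻¹ cf κ n b α`. Take the product over `s` (`Finset.prod_mul_distrib`, `Finset.prod_pow_eq_pow_sum`).
-/

set_option autoImplicit false

namespace AZ

open MvPolynomial CZ

private theorem Fv_nus {S ι : Type} [Fintype S] [DecidableEq S] [Fintype ι] [DecidableEq ι]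
    (K : KD S ι) (lam h kap ep : ℂ) (m : ι → ℤ) (s : S) :
    aeval (Sum.elim (fun j ↦ 2 * Real.pi * Complex.I * (m j : ℂ) / lam)
        (cstV K lam h kap ep)) (nusP s : MvPolynomial (ι ⊕ Vs S ι) ℤ) =
      (2 * Real.pi * Complex.I / lam) * K.st (fun j ↦ (m j : ℂ)) s := by
  unfold nusP KD.st
  rw [map_sum, Finset.mul_sum]
  refine Finset.sum_congr rfl fun j _ => ?_
  rw [map_mul, aeval_X, aeval_X]
  have h1 : (Sum.elim (fun j ↦ 2 * (Real.pi : ℂ) * Complex.I * (m j : ℂ) / lam)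
        (cstV K lam h kap ep) : ι ⊕ Vs S ι → ℂ) (Sum.inl j) =
      2 * Real.pi * Complex.I * (m j : ℂ) / lam := rfl
  have h2 : (Sum.elim (fun j ↦ 2 * (Real.pi : ℂ) * Complex.I * (m j : ℂ) / lam)
        (cstV K lam h kap ep) : ι ⊕ Vs S ι → ℂ) (Sum.inr (Sum.inr (Sum.inl (j, s)))) =
      K.nus j s := rfl
  rw [h1, h2]
  ring

private theorem Fv_bs {S ι : Type} [Fintype S] [DecidableEq S] [Fintype ι] [DecidableEq ι]
    (K : KD S ι) (lam h kap ep : ℂ) (m : ι → ℤ) (s : S) :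
    aeval (Sum.elim (fun j ↦ 2 * Real.pi * Complex.I * (m j : ℂ) / lam)
        (cstV K lam h kap ep)) (bsP s : MvPolynomial (ι ⊕ Vs S ι) ℤ) =
      (2 * Real.pi * Complex.I / lam) * K.bs (fun j ↦ (m j : ℂ)) s := by
  unfold bsP KD.bs
  rw [map_sum, Finset.mul_sum, Finset.mul_sum]
  refine Finset.sum_congr rfl fun j _ => ?_
  rw [map_mul, aeval_X, aeval_X]
  have h1 : (Sum.elim (fun j ↦ 2 * (Real.pi : ℂ) * Complex.I * (m j : ℂ) / lam)
        (cstV K lam h kap ep) : ι ⊕ Vs S ι → ℂ) (Sum.inl j) =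
      2 * Real.pi * Complex.I * (m j : ℂ) / lam := rfl
  have h2 : (Sum.elim (fun j ↦ 2 * (Real.pi : ℂ) * Complex.I * (m j : ℂ) / lam)
        (cstV K lam h kap ep) : ι ⊕ Vs S ι → ℂ) (Sum.inr (Sum.inr (Sum.inr (j, s)))) =
      (K.z - K.ze s) * K.nu j s := rfl
  rw [h1, h2]
  ring

private theorem Fv_term (c lam α b : ℂ) (hlam : lam ≠ 0) (κ n i : ℕ) (hi : i ≤ n) :
    lam ^ n * (((κ.choose i * n.descFactorial i : ℕ) : ℂ) *
      ((c / lam * α) ^ (κ - i) * (c / lam ^ 2) ^ i * (c / lam * b) ^ (n - i))) =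
    (n.factorial : ℂ) * (c / lam) ^ κ *
      ((κ.choose i : ℂ) * α ^ (κ - i) * ((c * b) ^ (n - i) / ((n - i).factorial : ℂ))) := by
  rcases Nat.lt_or_ge κ i with hk | hk
  · rw [Nat.choose_eq_zero_of_lt hk]
    simp
  · obtain ⟨a, rfl⟩ := Nat.exists_eq_add_of_le hk
    obtain ⟨d, rfl⟩ := Nat.exists_eq_add_of_le hi
    have h1 := Nat.factorial_mul_descFactorial hi
    rw [Nat.add_sub_cancel_left] at h1 ⊢
    rw [Nat.add_sub_cancel_left]
    have hd : ((d.factorial : ℕ) : ℂ) ≠ 0 := by exact_mod_cast d.factorial_ne_zero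
    rw [← h1]
    push_cast
    simp only [mul_pow, div_pow, pow_add, ← pow_mul, Nat.mul_comm 2 i]
    field_simp
    ring

private theorem Fv_cf {S ι : Type} [Fintype S] [DecidableEq S] [Fintype ι] [DecidableEq ι]
    (K : KD S ι) (lam h kap ep : ℂ) (hlam : lam ≠ 0) (m : ι → ℤ) (κ n : ℕ) (s : S) :
    lam ^ n * aeval (Sum.elim (fun j ↦ 2 * Real.pi * Complex.I * (m j : ℂ) / lam)
        (cstV K lam h kap ep)) (cfP κ n s : MvPolynomial (ι ⊕ Vs S ι) ℤ) =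
      (n.factorial : ℂ) * (2 * Real.pi * Complex.I / lam) ^ κ *
        KD.cf κ n (K.bs (fun j ↦ (m j : ℂ)) s) (K.st (fun j ↦ (m j : ℂ)) s) := by
  unfold cfP KD.cf
  rw [map_sum, Finset.mul_sum, Finset.mul_sum]
  refine Finset.sum_congr rfl fun i hi => ?_
  rw [Finset.mem_range] at hi
  rw [map_mul, map_mul, map_mul, map_pow, map_pow, map_pow, Fv_nus, Fv_bs, aeval_X]
  have h2 : (Sum.elim (fun j ↦ 2 * (Real.pi : ℂ) * Complex.I * (m j : ℂ) / lam)
        (cstV K lam h kap ep) : ι ⊕ Vs S ι → ℂ) (Sum.inr (Sum.inl 5)) =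
      2 * Real.pi * Complex.I / lam ^ 2 := rfl
  have h3 : aeval (Sum.elim (fun j ↦ 2 * (Real.pi : ℂ) * Complex.I * (m j : ℂ) / lam)
        (cstV K lam h kap ep) : ι ⊕ Vs S ι → ℂ)
        (C (((κ.choose i * n.descFactorial i : ℕ) : ℤ)) : MvPolynomial (ι ⊕ Vs S ι) ℤ) =
      ((κ.choose i * n.descFactorial i : ℕ) : ℂ) := by
    rw [MvPolynomial.aeval_C]
    simp
  rw [h2, h3]
  exact Fv_term (2 * Real.pi * Complex.I) lam _ _ hlam κ n i (by omega)

theorem FP_val {S ι : Type} [Fintype S] [DecidableEq S] [Fintype ι] [DecidableEq ι] (K : KD S ι)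
    (lam h kap ep : ℂ) (hlam : lam ≠ 0) (κ n : S → ℕ) (m : ι → ℤ) :
    lam ^ (∑ s, n s) * aeval (Sum.elim (fun j ↦ 2 * Real.pi * Complex.I * (m j : ℂ) / lam)
        (cstV K lam h kap ep)) (FP κ n) =
      (∏ s, ((n s).factorial : ℂ)) * (2 * Real.pi * Complex.I / lam) ^ (∑ s, κ s) *
        ∏ s, KD.cf (κ s) (n s) (K.bs (fun j ↦ (m j : ℂ)) s) (K.st (fun j ↦ (m j : ℂ)) s) := by
  unfold FP
  rw [map_prod, ← Finset.prod_pow_eq_pow_sum, ← Finset.prod_pow_eq_pow_sum, ← Finset.prod_mul_distrib,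
    ← Finset.prod_mul_distrib, ← Finset.prod_mul_distrib]
  exact Finset.prod_congr rfl fun s _ => Fv_cf K lam h kap ep hlam m (κ s) (n s) s

end AZ
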