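import Pool.Agent.H32.AZ.A0

/-!
# MP_ede373, all algebraic points, row Mb: size of `MM F`

`hat` is the row `At`. `d` bounds the total degree of `F`: for `u ∈ F.support`: `∑_j u (inl j) + ∑_v u (inr v) ≤ d` (`le_totalDegree`,
`Finsupp.sum_fintype`, `Fintype.sum_sum_type`). Degree: the term of `u` has degree `≤ ∑_j u (inl j) + ∑_v u (inr v) ≤ d`
(`totalDegree_finset_sum`, `totalDegree_mul`, `totalDegree_finset_prod`, `totalDegree_rename_le`, `totalDegree_X_pow`).
Norm: `nrm (MM F) ≤ ∑_u |coeff u F| ∏_j nrm (atV (u j)) ≤ ∑_u |coeff u F| (7 d + 1)^d`: `nrm (rename ..) = nrm` or `≤`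
(injective map; see `nrm_rename` in `CZ/Qa.lean` for equivalences, the same proof works for an injective map between
finite types), `(7 u_j + 1)^(u_j) ≤ (7 d + 1)^(u_j)`, `∏_j (7d+1)^(u_j) = (7d+1)^(∑ u_j) ≤ (7d+1)^d`, `nrm` of a monomial `∏ X v ^ _`
is `≤ 1` (`nrm_prod_le`, `nrm_pow_le`, `nrm_X`), `nrm_sum_le`, `nrm_mul_le`, `nrm_C` (file `T3/Ht.lean`).
-/

set_option autoImplicit false

namespace AZ

open MvPolynomial CZ
open H32.T3 (nrm)

private theorem Mb_rename {σ τ : Type*} {f : σ → τ} (hf : Function.Injective f)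
    (P : MvPolynomial σ ℤ) : nrm (rename f P) = nrm P := by
  classical
  unfold nrm
  rw [support_rename_of_injective hf,
    Finset.sum_image (fun x _ y _ h ↦ Finsupp.mapDomain_injective hf h)]
  refine Finset.sum_congr rfl fun m _ ↦ ?_
  rw [coeff_rename_mapDomain _ hf]

private theorem Mb_prod {σ α : Type*} (s : Finset α) (P : α → MvPolynomial σ ℤ) :
    nrm (∏ i ∈ s, P i) ≤ ∏ i ∈ s, nrm (P i) := by
  classical
  induction s using Finset.induction_on with
  | empty => simp [H32.T3.nrm_one]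
  | insert a s ha ih =>
    rw [Finset.prod_insert ha, Finset.prod_insert ha]
    exact (H32.T3.nrm_mul_le _ _).trans (mul_le_mul_of_nonneg_left ih (H32.T3.nrm_nonneg _))

private theorem Mb_sum {S ι : Type} [Fintype S] [Fintype ι]
    (F : MvPolynomial (ι ⊕ Vs S ι) ℤ) (d : ℕ) (hd : F.totalDegree ≤ d)
    {u : ι ⊕ Vs S ι →₀ ℕ} (hu : u ∈ F.support) :
    ∑ j, u (Sum.inl j) + ∑ v, u (Sum.inr v) ≤ d := by
  have h := le_totalDegree hu
  rw [Finsupp.sum_fintype _ _ (by simp), Fintype.sum_sum_type] at h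
  exact h.trans hd

theorem MM_bd {S ι : Type} [Fintype S] [DecidableEq S] [Fintype ι] [DecidableEq ι]
    (hat : ∀ r : ℕ, (at5 r).totalDegree ≤ r ∧ nrm (at5 r) ≤ (7 * r + 1 : ℝ) ^ r)
    (F : MvPolynomial (ι ⊕ Vs S ι) ℤ) (d : ℕ) (hd : F.totalDegree ≤ d) :
    (MM F).totalDegree ≤ d ∧ nrm (MM F) ≤ nrm F * (7 * d + 1 : ℝ) ^ d := by
  have hinj : Function.Injective (fun i : Fin 5 ↦ (Sum.inl i.castSucc : Vs S ι)) := by
    intro a b h
    exact Fin.castSucc_injective _ (Sum.inl_injective h)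
  have hdeg : ∀ r : ℕ, (atV S ι r).totalDegree ≤ r := fun r ↦
    (totalDegree_rename_le _ _).trans (hat r).1
  have hnrm : ∀ r : ℕ, nrm (atV S ι r) ≤ (7 * r + 1 : ℝ) ^ r := fun r ↦ by
    unfold atV
    rw [Mb_rename hinj]
    exact (hat r).2
  constructor
  · unfold MM
    refine totalDegree_finsetSum_le fun u hu ↦ ?_
    refine (totalDegree_mul _ _).trans ?_
    rw [totalDegree_C, zero_add]
    refine (totalDegree_mul _ _).trans ?_
    refine le_trans (Nat.add_le_add ?_ ?_) (Mb_sum F d hd hu)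
    · exact (totalDegree_finsetProd _ _).trans (Finset.sum_le_sum fun j _ ↦ hdeg _)
    · refine (totalDegree_finsetProd _ _).trans (Finset.sum_le_sum fun v _ ↦ ?_)
      rw [totalDegree_X_pow]
  · unfold MM
    refine (H32.T3.nrm_sum_le _ _).trans ?_
    conv_rhs => rw [nrm, Finset.sum_mul]
    refine Finset.sum_le_sum fun u hu ↦ ?_
    refine (H32.T3.nrm_mul_le _ _).trans ?_
    rw [H32.T3.nrm_C]
    refine mul_le_mul_of_nonneg_left ?_ (abs_nonneg _)
    refine (H32.T3.nrm_mul_le _ _).trans ?_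
    have hs := Mb_sum F d hd hu
    have hd1 : (1 : ℝ) ≤ 7 * d + 1 := by
      have : (0 : ℝ) ≤ d := Nat.cast_nonneg _
      linarith
    have h1 : nrm (∏ j, atV S ι (u (Sum.inl j))) ≤ (7 * d + 1 : ℝ) ^ d := by
      refine (Mb_prod _ _).trans ?_
      calc ∏ j, nrm (atV S ι (u (Sum.inl j)))
          ≤ ∏ j : ι, (7 * d + 1 : ℝ) ^ (u (Sum.inl j)) := by
            refine Finset.prod_le_prod (fun j _ ↦ H32.T3.nrm_nonneg _) fun j _ ↦ (hnrm _).trans ?_
            refine pow_le_pow_left₀ (by positivity) ?_ _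
            have h2 : u (Sum.inl j) ≤ d := by
              have := Finset.single_le_sum (f := fun j ↦ u (Sum.inl j))
                (fun _ _ ↦ Nat.zero_le _) (Finset.mem_univ j)
              omega
            have h3 : ((u (Sum.inl j) : ℕ) : ℝ) ≤ d := by exact_mod_cast h2
            linarith
        _ = (7 * d + 1 : ℝ) ^ (∑ j, u (Sum.inl j)) := by rw [Finset.prod_pow_eq_pow_sum]
        _ ≤ (7 * d + 1 : ℝ) ^ d := pow_le_pow_right₀ hd1 (by omega)
    have h2 : nrm (∏ v : Vs S ι, (X v : MvPolynomial (Vs S ι) ℤ) ^ u (Sum.inr v)) ≤ 1 := by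
      refine (Mb_prod _ _).trans ?_
      refine Finset.prod_le_one (fun v _ ↦ H32.T3.nrm_nonneg _) fun v _ ↦ ?_
      refine (H32.T3.nrm_pow_le _ _).trans ?_
      rw [H32.T3.nrm_X, one_pow]
    calc nrm (∏ j, atV S ι (u (Sum.inl j))) *
          nrm (∏ v : Vs S ι, (X v : MvPolynomial (Vs S ι) ℤ) ^ u (Sum.inr v))
        ≤ (7 * d + 1 : ℝ) ^ d * 1 := mul_le_mul h1 h2 (H32.T3.nrm_nonneg _) (by positivity)
      _ = (7 * d + 1 : ℝ) ^ d := mul_one _

end AZ
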