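import Mathlib

/-!
# MP_ede373, all algebraic points, row Mo: moments of the theta coefficients

Put `t n = c0 (-1)^n exp(π i n² z)` (`n : ℤ`), so `‖t n‖ = ‖c0‖ exp(-π n² Im z)`, and `A s = ∑' n, t n exp(2 π i n s)`
(`jacobiTheta₂_term n (s + 1/2) z = exp(2 π i n s) exp(π i n) exp(π i n² z)`, `exp(π i n) = (-1)^n`; `exp_int_mul`,
`exp_pi_mul_I`). For `r : ℕ` let `g r s = ∑' n, t n (2 π i n)^r exp(2 π i n s)`. For `R > 0` the terms on the ball `‖s‖ < R` are bounded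
by `‖c0‖ (2π)^r |n|^r exp(-π(n² Im z - 2 R |n|))`, summable by `summable_pow_mul_jacobiTheta₂_term_bound`. So
`HasDerivAt (g r) (g (r+1) s) s` (`hasDerivAt_tsum_of_isPreconnected` on the ball) and by induction
`iteratedDeriv r A = g r` (`iteratedDeriv_succ`, `funext`). At `s = 0`: the statement.
-/

set_option autoImplicit false

namespace AZ

open Complex

theorem Mo_bound (z : ℂ) (hz : 0 < z.im) (c0 : ℂ) (r : ℕ) {R : ℝ} {s : ℂ} (hs : ‖s‖ < R) (n : ℤ) :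
    ‖c0 * jacobiTheta₂_term n (s + 1 / 2) z * (2 * Real.pi * I * n) ^ r‖ ≤
      ‖c0‖ * (2 * Real.pi) ^ r * ((|n| ^ r : ℝ) * Real.exp (-Real.pi * (z.im * n ^ 2 - 2 * R * |n|))) := by
  have him : |(s + 1 / 2).im| ≤ R := by
    have e : (s + 1 / 2).im = s.im := by simp
    rw [e]
    exact (Complex.abs_im_le_norm s).trans hs.le
  have h1 := norm_jacobiTheta₂_term_le hz him (le_refl z.im) n
  have h2 : ‖(2 * Real.pi * I * n : ℂ)‖ = 2 * Real.pi * |(n : ℝ)| := by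
    simp only [norm_mul, Complex.norm_ofNat, Complex.norm_real, Complex.norm_I, mul_one,
      Complex.norm_intCast, Real.norm_eq_abs, abs_of_pos Real.pi_pos]
  rw [norm_mul, norm_mul, norm_pow, h2, mul_pow]
  calc ‖c0‖ * ‖jacobiTheta₂_term n (s + 1 / 2) z‖ * ((2 * Real.pi) ^ r * |(n : ℝ)| ^ r)
      ≤ ‖c0‖ * Real.exp (-Real.pi * (z.im * n ^ 2 - 2 * R * |n|)) *
          ((2 * Real.pi) ^ r * |(n : ℝ)| ^ r) := by
        gcongr
    _ = _ := by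
        push_cast
        ring

theorem Mo_sum (z : ℂ) (hz : 0 < z.im) (c0 : ℂ) (r : ℕ) (R : ℝ) :
    Summable (fun n : ℤ ↦ ‖c0‖ * (2 * Real.pi) ^ r *
      ((|n| ^ r : ℝ) * Real.exp (-Real.pi * (z.im * n ^ 2 - 2 * R * |n|)))) :=
  (summable_pow_mul_jacobiTheta₂_term_bound R hz r).mul_left _

theorem Mo_summ (z : ℂ) (hz : 0 < z.im) (c0 : ℂ) (r : ℕ) (s : ℂ) :
    Summable (fun n : ℤ ↦ ‖c0 * jacobiTheta₂_term n (s + 1 / 2) z * (2 * Real.pi * I * n) ^ r‖) := by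
  refine Summable.of_nonneg_of_le (fun n => norm_nonneg _)
    (fun n => Mo_bound z hz c0 r (R := ‖s‖ + 1) (by linarith) n) (Mo_sum z hz c0 r (‖s‖ + 1))

theorem Mo_deriv (z : ℂ) (hz : 0 < z.im) (c0 : ℂ) (r : ℕ) (s : ℂ) :
    HasDerivAt (fun s : ℂ ↦ ∑' n : ℤ, c0 * jacobiTheta₂_term n (s + 1 / 2) z * (2 * Real.pi * I * n) ^ r)
      (∑' n : ℤ, c0 * jacobiTheta₂_term n (s + 1 / 2) z * (2 * Real.pi * I * n) ^ (r + 1)) s := by
  refine hasDerivAt_tsum_of_isPreconnected (t := Metric.ball (0 : ℂ) (‖s‖ + 1))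
    (g := fun (n : ℤ) (s : ℂ) ↦ c0 * jacobiTheta₂_term n (s + 1 / 2) z * (2 * Real.pi * I * n) ^ r)
    (g' := fun (n : ℤ) (s : ℂ) ↦ c0 * jacobiTheta₂_term n (s + 1 / 2) z * (2 * Real.pi * I * n) ^ (r + 1))
    (Mo_sum z hz c0 (r + 1) (‖s‖ + 1)) Metric.isOpen_ball (convex_ball _ _).isPreconnected ?_ ?_
    (y₀ := 0) (Metric.mem_ball_self (by positivity)) ?_ (by simp)
  · intro n y _
    have h0 : HasDerivAt (fun s : ℂ ↦ 2 * (Real.pi : ℂ) * I * n * (s + 1 / 2) + Real.pi * I * n ^ 2 * z)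
        (2 * (Real.pi : ℂ) * I * n) y := by
      have h1 := (((hasDerivAt_id y).add_const (1 / 2 : ℂ)).const_mul
        (2 * (Real.pi : ℂ) * I * n)).add_const (Real.pi * I * n ^ 2 * z)
      simpa using h1
    have h2 := ((h0.cexp).const_mul c0).mul_const ((2 * (Real.pi : ℂ) * I * n) ^ r)
    have h3 : (fun s : ℂ ↦ c0 * jacobiTheta₂_term n (s + 1 / 2) z * (2 * (Real.pi : ℂ) * I * n) ^ r)
        = fun s : ℂ ↦ c0 * cexp (2 * (Real.pi : ℂ) * I * n * (s + 1 / 2) + Real.pi * I * n ^ 2 * z) *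
          (2 * (Real.pi : ℂ) * I * n) ^ r := rfl
    rw [h3]
    have h4 : c0 * jacobiTheta₂_term n (y + 1 / 2) z * (2 * (Real.pi : ℂ) * I * n) ^ (r + 1)
        = c0 * (cexp (2 * (Real.pi : ℂ) * I * n * (y + 1 / 2) + Real.pi * I * n ^ 2 * z) *
          (2 * (Real.pi : ℂ) * I * n)) * (2 * (Real.pi : ℂ) * I * n) ^ r := by
      rw [jacobiTheta₂_term]
      ring
    rw [h4]
    exact h2
  · intro n y hy
    rw [Metric.mem_ball, dist_zero_right] at hy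
    exact Mo_bound z hz c0 (r + 1) hy n
  · exact (Mo_summ z hz c0 r 0).of_norm

theorem Mo_iter (z : ℂ) (hz : 0 < z.im) (c0 : ℂ) (A : ℂ → ℂ)
    (hA : ∀ s, A s = c0 * jacobiTheta₂ (s + 1 / 2) z) (r : ℕ) :
    iteratedDeriv r A = fun s : ℂ ↦
      ∑' n : ℤ, c0 * jacobiTheta₂_term n (s + 1 / 2) z * (2 * Real.pi * I * n) ^ r := by
  induction r with
  | zero =>
    rw [iteratedDeriv_zero]
    ext s
    rw [hA, jacobiTheta₂, ← tsum_mul_left]
    exact tsum_congr fun n => by rw [pow_zero, mul_one]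
  | succ r ih =>
    rw [iteratedDeriv_succ, ih]
    ext s
    exact (Mo_deriv z hz c0 r s).deriv

theorem Mo_term (z : ℂ) (c0 : ℂ) (r : ℕ) (n : ℤ) :
    c0 * jacobiTheta₂_term n (0 + 1 / 2) z * (2 * Real.pi * I * n) ^ r =
      c0 * (-1) ^ n * exp (Real.pi * I * (n : ℂ) ^ 2 * z) * (2 * Real.pi * I * n) ^ r := by
  have h1 : cexp (2 * (Real.pi : ℂ) * I * n * (0 + 1 / 2)) = (-1) ^ n := by
    have e : (2 * (Real.pi : ℂ) * I * n * (0 + 1 / 2)) = n * (Real.pi * I) := by ring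
    rw [e, Complex.exp_int_mul, Complex.exp_pi_mul_I]
  rw [jacobiTheta₂_term, Complex.exp_add, h1]
  ring

theorem moments (z : ℂ) (hz : 0 < z.im) (c0 : ℂ) (A : ℂ → ℂ)
    (hA : ∀ s, A s = c0 * jacobiTheta₂ (s + 1 / 2) z) (r : ℕ) :
    HasSum (fun n : ℤ ↦ c0 * (-1) ^ n * exp (Real.pi * I * (n : ℂ) ^ 2 * z) *
      (2 * Real.pi * I * n) ^ r) (iteratedDeriv r A 0) ∧
    Summable (fun n : ℤ ↦ ‖c0 * (-1) ^ n * exp (Real.pi * I * (n : ℂ) ^ 2 * z) *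
      (2 * Real.pi * I * n) ^ r‖) := by
  have h0 := Mo_iter z hz c0 A hA r
  have hs := Mo_summ z hz c0 r 0
  have e : (fun n : ℤ ↦ c0 * (-1) ^ n * exp (Real.pi * I * (n : ℂ) ^ 2 * z) *
      (2 * Real.pi * I * n) ^ r) =
      fun n : ℤ ↦ c0 * jacobiTheta₂_term n (0 + 1 / 2) z * (2 * Real.pi * I * n) ^ r :=
    funext fun n => (Mo_term z c0 r n).symm
  refine ⟨?_, ?_⟩
  · rw [e, h0]
    exact hs.of_norm.hasSum
  · have e2 : (fun n : ℤ ↦ ‖c0 * (-1) ^ n * exp (Real.pi * I * (n : ℂ) ^ 2 * z) *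
        (2 * Real.pi * I * n) ^ r‖) =
        fun n : ℤ ↦ ‖c0 * jacobiTheta₂_term n (0 + 1 / 2) z * (2 * Real.pi * I * n) ^ r‖ :=
      funext fun n => by rw [Mo_term z c0 r n]
    rw [e2]
    exact hs

end AZ
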