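import Pool.Agent.H32.AZ.A0

/-!
# MP_ede373, all algebraic points, row Mv: the value of `MM F`

`aeval g F = ∑_{u ∈ F.support} coeff u F * (∏_j g (inl j)^(u (inl j))) * ∏_v g (inr v)^(u (inr v))` (`aeval_def`,
`eval₂_eq'`, `Fintype.prod_sum_type`). With `g (inl j) = 2 π i m_j / lam`, `g (inr v) = cstV .. v`, the sum over `m` of `K.am c0 m` times the
term of `u` is (`hasSum_sum`, `HasSum.mul_left`, `HasSum.mul_right`): `K.am c0 m * ∏_j (2πi m_j/lam)^(u_j) =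
(∏_j t_j(m_j) (2πi m_j)^(u_j)) * ∏_j lam^(-u_j)` with `t_j(n) = c0 (-1)^n exp(π i n^2 z)`: this has sum
`(∏_j lam^(u_j) aeval (at5 u_j)) ∏_j lam^(-u_j) = ∏_j aeval _ (at5 u_j)` by the hypotheses `hm` (`hprod`), and
`aeval (cstV ..) (atV S ι r) = aeval ![ep,0,0,h,kap] (at5 r)` (`aeval_rename`; the function `cstV ∘ inl ∘ castSucc`).
-/

set_option autoImplicit false

namespace AZ

open MvPolynomial CZ

private theorem Mv_expand {σ : Type} [Fintype σ] (g : σ → ℂ) (F : MvPolynomial σ ℤ) :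
    aeval g F = ∑ u ∈ F.support, ((coeff u F : ℤ) : ℂ) * ∏ v, g v ^ u v := by
  rw [aeval_def, eval₂_eq']
  refine Finset.sum_congr rfl (fun u _ ↦ ?_)
  rw [eq_intCast]

private theorem Mv_at {S ι : Type} [Fintype S] [DecidableEq S] [Fintype ι] [DecidableEq ι]
    (K : KD S ι) (lam h kap ep : ℂ) (r : ℕ) :
    aeval (cstV K lam h kap ep) (atV S ι r) =
      aeval (![ep, 0, 0, h, kap] : Fin 5 → ℂ) (at5 r) := by
  unfold atV
  rw [aeval_rename]
  congr 2
  funext i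
  fin_cases i <;> rfl

theorem MM_val {S ι : Type} [Fintype S] [DecidableEq S] [Fintype ι] [DecidableEq ι] (K : KD S ι)
    (c0 lam h kap ep : ℂ) (hlam : lam ≠ 0)
    (hprod : ∀ r : ι → ℕ, HasSum (fun m : ι → ℤ ↦ ∏ j, (c0 * (-1) ^ (m j) *
      Complex.exp (Real.pi * Complex.I * (m j : ℂ) ^ 2 * K.z) *
        (2 * Real.pi * Complex.I * m j) ^ r j))
      (∏ j, (lam ^ r j * aeval (![ep, 0, 0, h, kap] : Fin 5 → ℂ) (at5 (r j)))))
    (F : MvPolynomial (ι ⊕ Vs S ι) ℤ) :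
    HasSum (fun m : ι → ℤ ↦ K.am c0 m *
      aeval (Sum.elim (fun j ↦ 2 * Real.pi * Complex.I * (m j : ℂ) / lam)
        (cstV K lam h kap ep)) F)
      (aeval (cstV K lam h kap ep) (MM F)) := by
  have hr : aeval (cstV K lam h kap ep) (MM F) = ∑ u ∈ F.support, ((coeff u F : ℤ) : ℂ) *
      ((∏ j, aeval (![ep, 0, 0, h, kap] : Fin 5 → ℂ) (at5 (u (Sum.inl j)))) *
        ∏ v, cstV K lam h kap ep v ^ u (Sum.inr v)) := by
    unfold MM
    rw [map_sum]
    refine Finset.sum_congr rfl (fun u _ ↦ ?_)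
    rw [map_mul, map_mul, map_prod, map_prod, aeval_C, eq_intCast]
    simp only [Mv_at, map_pow, aeval_X]
  rw [hr]
  have hl : (fun m : ι → ℤ ↦ K.am c0 m *
      aeval (Sum.elim (fun j ↦ 2 * Real.pi * Complex.I * (m j : ℂ) / lam)
        (cstV K lam h kap ep)) F) = fun m : ι → ℤ ↦ ∑ u ∈ F.support, ((coeff u F : ℤ) : ℂ) *
      ((∏ j, (c0 * (-1) ^ (m j) *
      Complex.exp (Real.pi * Complex.I * (m j : ℂ) ^ 2 * K.z) *
        (2 * Real.pi * Complex.I * m j) ^ (u (Sum.inl j)))) * (∏ j, (lam ^ (u (Sum.inl j)))⁻¹) *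
        ∏ v, cstV K lam h kap ep v ^ u (Sum.inr v)) := by
    funext m
    rw [Mv_expand, Finset.mul_sum]
    refine Finset.sum_congr rfl (fun u _ ↦ ?_)
    rw [Fintype.prod_sum_type]
    simp only [Sum.elim_inl, Sum.elim_inr]
    have e : K.am c0 m * ∏ j, (2 * Real.pi * Complex.I * (m j : ℂ) / lam) ^ (u (Sum.inl j)) =
        (∏ j, (c0 * (-1) ^ (m j) * Complex.exp (Real.pi * Complex.I * (m j : ℂ) ^ 2 * K.z) *
        (2 * Real.pi * Complex.I * m j) ^ (u (Sum.inl j)))) *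
          (∏ j, (lam ^ (u (Sum.inl j)))⁻¹) := by
      unfold KD.am
      rw [← Finset.prod_mul_distrib, ← Finset.prod_mul_distrib]
      refine Finset.prod_congr rfl (fun j _ ↦ ?_)
      rw [div_pow, div_eq_mul_inv]
      ring
    rw [← e]
    ring
  rw [hl]
  apply hasSum_sum
  intro u _
  apply HasSum.mul_left
  apply HasSum.mul_right
  have h1 := (hprod (fun j ↦ u (Sum.inl j))).mul_right (∏ j, (lam ^ (u (Sum.inl j)))⁻¹)
  have e2 : (∏ j, (lam ^ (u (Sum.inl j)) *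
      aeval (![ep, 0, 0, h, kap] : Fin 5 → ℂ) (at5 (u (Sum.inl j))))) *
        (∏ j, (lam ^ (u (Sum.inl j)))⁻¹) =
      ∏ j, aeval (![ep, 0, 0, h, kap] : Fin 5 → ℂ) (at5 (u (Sum.inl j))) := by
    rw [← Finset.prod_mul_distrib]
    refine Finset.prod_congr rfl (fun j _ ↦ ?_)
    have h3 : lam ^ (u (Sum.inl j)) ≠ 0 := pow_ne_zero _ hlam
    field_simp
  rw [← e2]
  exact h1

end AZ
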