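import Mathlib

/-!
# MP_ede373, all algebraic points, row Pr: products of absolutely convergent sums

Induction on the number of elements: by an equivalence `ι ≃ Fin d` (`Equiv.arrowCongr`/`Equiv.piCongrLeft`, `Equiv.hasSum_iff`,
`Fintype.prod_equiv`) we may take `ι = Fin d`. `d = 0`: one term (`hasSum_unique`/`Unique`). Step: `Fin.consEquiv`/`Fin.insertNthEquiv`
(`Fin (d+1) → ℤ ≃ ℤ × (Fin d → ℤ)`), `Fin.prod_univ_succ`, and `HasSum.mul_of_nonneg`-like for norms:
`HasSum` of the product of two absolutely convergent series over the product (`Summable.mul_norm`,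
`tsum_mul_tsum_of_summable_norm`, or `HasSum.mul` with `summable_mul_of_summable_norm`). Carry both the `HasSum` and the summability
of the norms in the induction. -/

set_option autoImplicit false

namespace AZ

private theorem Pr_fin (d : ℕ) : ∀ (f : Fin d → ℤ → ℂ) (a : Fin d → ℂ), (∀ j, HasSum (f j) (a j)) →
    (∀ j, Summable fun n ↦ ‖f j n‖) →
    HasSum (fun m : Fin d → ℤ ↦ ∏ j, f j (m j)) (∏ j, a j) ∧
      Summable (fun m : Fin d → ℤ ↦ ‖∏ j, f j (m j)‖) := by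
  induction d with
  | zero =>
    intro f a _ _
    constructor
    · have h := hasSum_unique (fun m : Fin 0 → ℤ ↦ ∏ j, f j (m j))
      exact h
    · exact (hasSum_unique (fun m : Fin 0 → ℤ ↦ ‖∏ j, f j (m j)‖)).summable
  | succ d ih =>
    intro f a hf hs
    obtain ⟨h1, h2⟩ := ih (fun j ↦ f j.succ) (fun j ↦ a j.succ) (fun j ↦ hf j.succ)
      (fun j ↦ hs j.succ)
    let E : ℤ × (Fin d → ℤ) ≃ (Fin (d + 1) → ℤ) :=
      { toFun := fun x ↦ Fin.cons x.1 x.2
        invFun := fun m ↦ (m 0, Fin.tail m)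
        left_inv := fun x ↦ by simp
        right_inv := fun m ↦ by simp }
    have e1 : ∀ x : ℤ × (Fin d → ℤ),
        (∏ j, f j (E x j)) = f 0 x.1 * ∏ j : Fin d, f j.succ (x.2 j) := by
      intro x
      rw [Fin.prod_univ_succ]
      rfl
    have e2 : ((fun m : Fin (d + 1) → ℤ ↦ ∏ j, f j (m j)) ∘ E) =
        fun x : ℤ × (Fin d → ℤ) ↦ f 0 x.1 * ∏ j : Fin d, f j.succ (x.2 j) := by
      funext x
      exact e1 x
    have e3 : ((fun m : Fin (d + 1) → ℤ ↦ ‖∏ j, f j (m j)‖) ∘ E) =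
        fun x : ℤ × (Fin d → ℤ) ↦ ‖f 0 x.1 * ∏ j : Fin d, f j.succ (x.2 j)‖ := by
      funext x
      exact congrArg norm (e1 x)
    have h0 : Summable (fun x : ℤ × (Fin d → ℤ) ↦ f 0 x.1 * ∏ j : Fin d, f j.succ (x.2 j)) :=
      summable_mul_of_summable_norm (f := f 0)
        (g := fun m : Fin d → ℤ ↦ ∏ j : Fin d, f j.succ (m j)) (hs 0) h2
    have h5 : (∑' x : ℤ × (Fin d → ℤ), f 0 x.1 * ∏ j : Fin d, f j.succ (x.2 j)) =
        a 0 * ∏ j : Fin d, a j.succ := by
      have h6 := tsum_mul_tsum_of_summable_norm (f := f 0)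
        (g := fun m : Fin d → ℤ ↦ ∏ j : Fin d, f j.succ (m j)) (hs 0) h2
      rw [← h6, (hf 0).tsum_eq, h1.tsum_eq]
    have h3 : HasSum (fun x : ℤ × (Fin d → ℤ) ↦ f 0 x.1 * ∏ j : Fin d, f j.succ (x.2 j))
        (a 0 * ∏ j : Fin d, a j.succ) := by
      rw [← h5]
      exact h0.hasSum
    have h4 : Summable (fun x : ℤ × (Fin d → ℤ) ↦ ‖f 0 x.1 * ∏ j : Fin d, f j.succ (x.2 j)‖) :=
      Summable.mul_norm (f := f 0)
        (g := fun m : Fin d → ℤ ↦ ∏ j : Fin d, f j.succ (m j)) (hs 0) h2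
    constructor
    · rw [Fin.prod_univ_succ]
      refine (E.hasSum_iff).1 ?_
      rw [e2]
      exact h3
    · refine (E.summable_iff).1 ?_
      rw [e3]
      exact h4

theorem prodSum {ι : Type} [Fintype ι] (f : ι → ℤ → ℂ) (a : ι → ℂ) (hf : ∀ j, HasSum (f j) (a j))
    (hs : ∀ j, Summable fun n ↦ ‖f j n‖) :
    HasSum (fun m : ι → ℤ ↦ ∏ j, f j (m j)) (∏ j, a j) := by
  classical
  let e := Fintype.equivFin ι
  obtain ⟨h1, -⟩ := Pr_fin (Fintype.card ι) (fun j ↦ f (e.symm j)) (fun j ↦ a (e.symm j))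
    (fun j ↦ hf _) (fun j ↦ hs _)
  rw [e.symm.prod_comp a] at h1
  rw [← (Equiv.arrowCongr e (Equiv.refl ℤ)).hasSum_iff] at h1
  convert h1 using 1
  funext m
  rw [Function.comp_apply, ← e.symm.prod_comp (fun j ↦ f j (m j))]
  rfl

end AZ
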