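import Pool.Agent.H32.AZ.Fo
import Pool.Agent.H32.AZ.Mo
import Pool.Agent.H32.AZ.Pr
import Pool.Agent.H32.AZ.At
import Pool.Agent.H32.AZ.Mv
import Pool.Agent.H32.AZ.Mb
import Pool.Agent.H32.AZ.Fb
import Pool.Agent.H32.AZ.Fv
import Pool.Agent.H32.AZ.Al
import Pool.Agent.H32.CZ.Qe

/-!
# MP_ede373, all algebraic points: the arithmetic interface (assembly)
-/

set_option autoImplicit false

open EisensteinSeries ModularForm UpperHalfPlane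

namespace AZ

open MvPolynomial CZ
open H32.T3 (nrm)

theorem arith_num (C0 T : ℝ) (n : ℕ) (hT : 0 ≤ T) (hn : (n : ℝ) = 2 * T) :
    Real.exp (C0 * (T + 1) * Real.log (T + 2)) * (7 * n + 1 : ℝ) ^ n ≤
      Real.exp ((C0 + 10) * (T + 1) * Real.log (T + 2)) := by
  have hlog : 0 ≤ Real.log (T + 2) := Real.log_nonneg (by linarith)
  have h1 : (7 * n + 1 : ℝ) ≤ (T + 2) ^ 5 := by
    rw [hn]
    nlinarith [pow_nonneg hT 2, pow_nonneg hT 3, pow_nonneg hT 4, pow_nonneg hT 5]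
  have h2 : (7 * n + 1 : ℝ) ^ n ≤ Real.exp (10 * (T + 1) * Real.log (T + 2)) := by
    have h3 : (7 * n + 1 : ℝ) ^ n ≤ ((T + 2) ^ 5) ^ n := pow_le_pow_left₀ (by positivity) h1 n
    refine h3.trans ?_
    rw [← pow_mul, ← Real.rpow_natCast, Real.rpow_def_of_pos (by linarith)]
    apply Real.exp_le_exp.2
    push_cast
    rw [hn]
    nlinarith
  calc _ ≤ Real.exp (C0 * (T + 1) * Real.log (T + 2)) *
        Real.exp (10 * (T + 1) * Real.log (T + 2)) := by gcongr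
    _ = _ := by rw [← Real.exp_add]; congr 1; ring

theorem arith_rename {σ : Type} [Fintype σ] (P : MvPolynomial σ ℤ) (v : σ → ℂ) :
    ∃ W : MvPolynomial (Fin (Fintype.card σ)) ℤ, W.totalDegree ≤ P.totalDegree ∧ nrm W = nrm P ∧
      aeval (fun i ↦ v ((Fintype.equivFin σ).symm i)) W = aeval v P := by
  refine ⟨rename (Fintype.equivFin σ) P, totalDegree_rename_le _ _, nrm_rename _ _, ?_⟩
  rw [aeval_rename]
  congr 2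
  ext i
  simp

theorem arith {S ι : Type} [Fintype S] [DecidableEq S] [Fintype ι] [DecidableEq ι] (K : KD S ι)
    (hcm : ¬ ∃ a b c : ℤ, (a ≠ 0 ∨ b ≠ 0 ∨ c ≠ 0) ∧ (a : ℂ) * K.z ^ 2 + b * K.z + c = 0)
    (E4 E6 Jf : ℂ → ℂ)
    (h4 : ∀ τ : ℂ, E4 τ = 1 + 240 * ∑' m : ℕ, ((ArithmeticFunction.sigma 3 (m + 1) : ℕ) : ℂ) *
          Complex.exp (2 * (Real.pi : ℂ) * Complex.I * ((m : ℂ) + 1) * τ))
    (h6 : ∀ τ : ℂ, E6 τ = 1 - 504 * ∑' m : ℕ, ((ArithmeticFunction.sigma 5 (m + 1) : ℕ) : ℂ) *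
          Complex.exp (2 * (Real.pi : ℂ) * Complex.I * ((m : ℂ) + 1) * τ))
    (hJ : ∀ τ : ℂ, Jf τ = 1728 * E4 τ ^ 3 / (E4 τ ^ 3 - E6 τ ^ 2)) :
    ∃ (c0 : ℂ) (m : ℕ) (P : Fin m → ℂ) (lam : ℂ) (C : ℝ), c0 ≠ 0 ∧ lam ≠ 0 ∧ 1 ≤ C ∧
      (∀ i, IsAlgebraic (IntermediateField.adjoin ℚ
        ({Jf K.z, deriv Jf K.z, deriv (deriv Jf) K.z} : Set ℂ)) (P i)) ∧
      ∀ κ n : S → ℕ, ∃ W : MvPolynomial (Fin m) ℤ,
        (W.totalDegree : ℝ) ≤ C * (∑ s, κ s + ∑ s, n s + 1) ∧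
        nrm W ≤ Real.exp (C * (∑ s, κ s + ∑ s, n s + 1) *
          Real.log (∑ s, κ s + ∑ s, n s + 2)) ∧
        (∏ s, ((n s).factorial : ℂ)) * (2 * Real.pi * Complex.I / lam) ^ (∑ s, κ s) *
          K.jc c0 κ n = lam ^ (∑ s, n s) * MvPolynomial.aeval P W := by
  obtain ⟨τ, hτ⟩ : ∃ τ : ℍ, (τ : ℂ) = K.z := ⟨⟨K.z, K.hz⟩, rfl⟩
  obtain ⟨n4, n6⟩ := E_ne K.z hcm τ hτ
  obtain ⟨b0, lam, ep, ε, Xf, X1f, Yf, hs, hl, hp⟩ := exists_base τ n4 n6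
  have key : ∀ (z : ℂ) (hz : (τ : ℂ) = z), ∃ b : BaseFn z, BaseSys b lam
      (27 / 2 * (E₄ τ ^ 3 / E₆ τ ^ 2)) (3 / 2 * (E2 τ * E₄ τ / E₆ τ)) ep ε Xf X1f Yf := by
    rintro z rfl
    exact ⟨b0, hs⟩
  obtain ⟨b, hb⟩ := key K.z hτ
  obtain ⟨h, hh⟩ : ∃ h : ℂ, h = 27 / 2 * (E₄ τ ^ 3 / E₆ τ ^ 2) := ⟨_, rfl⟩
  obtain ⟨kap, hkap⟩ : ∃ kap : ℂ, kap = 3 / 2 * (E2 τ * E₄ τ / E₆ τ) := ⟨_, rfl⟩
  have halg := cstV_alg (ι := ι) K τ hτ n4 n6 E4 E6 Jf h4 h6 hJ lam ep hl hp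
  rw [← hh, ← hkap] at hb halg
  have hlam : lam ≠ 0 := hb.hlam
  obtain ⟨c0, hc0, hA⟩ := four K.z K.hz b.A b.dA b.A0 b.A1 b.Az
  have hprod : ∀ r : ι → ℕ, HasSum (fun m : ι → ℤ ↦ ∏ j, (c0 * (-1) ^ (m j) *
      Complex.exp (Real.pi * Complex.I * (m j : ℂ) ^ 2 * K.z) *
        (2 * Real.pi * Complex.I * m j) ^ r j))
      (∏ j, (lam ^ r j * aeval (![ep, 0, 0, h, kap] : Fin 5 → ℂ) (at5 (r j)))) := by
    intro r
    refine prodSum (fun j n ↦ c0 * (-1) ^ n *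
      Complex.exp (Real.pi * Complex.I * (n : ℂ) ^ 2 * K.z) *
        (2 * Real.pi * Complex.I * n) ^ r j) _ (fun j ↦ ?_) (fun j ↦ ?_)
    · rw [← at5_val b lam h kap ep ε Xf X1f Yf hb (r j)]
      exact (moments K.z K.hz c0 b.A hA (r j)).1
    · exact (moments K.z K.hz c0 b.A hA (r j)).2
  obtain ⟨C0, hC01, hC0⟩ := FP_bd S ι
  refine ⟨c0, Fintype.card (Vs S ι), fun i ↦ cstV K lam h kap ep ((Fintype.equivFin _).symm i),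
    lam, C0 + 10, hc0, hlam, by linarith, fun i ↦ halg _, ?_⟩
  intro κ n
  obtain ⟨T, hT⟩ : ∃ T : ℕ, T = ∑ s, κ s + ∑ s, n s := ⟨_, rfl⟩
  have hTc : ((∑ s, κ s : ℕ) : ℝ) + ((∑ s, n s : ℕ) : ℝ) = T := by
    rw [hT]; push_cast; rfl
  obtain ⟨W, hW1, hW2, hW3⟩ := arith_rename
    (MM (FP κ n : MvPolynomial (ι ⊕ Vs S ι) ℤ)) (cstV K lam h kap ep)
  obtain ⟨hF1, hF2⟩ := hC0 κ n
  obtain ⟨hM1, hM2⟩ := MM_bd at5_bd (FP κ n : MvPolynomial (ι ⊕ Vs S ι) ℤ) _ hF1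
  refine ⟨W, ?_, ?_, ?_⟩
  · rw [hTc]
    have h1 : W.totalDegree ≤ 2 * T := by
      rw [hT]
      exact hW1.trans hM1
    have h2 : (W.totalDegree : ℝ) ≤ 2 * T := by exact_mod_cast h1
    have hT0 : (0 : ℝ) ≤ T := Nat.cast_nonneg _
    nlinarith
  · rw [hTc, hW2]
    rw [hTc] at hF2
    rw [← hT] at hM2
    refine hM2.trans ?_
    have hT0 : (0 : ℝ) ≤ T := Nat.cast_nonneg _
    refine le_trans ?_ (arith_num C0 T (2 * T) hT0 (by push_cast; ring))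
    exact mul_le_mul_of_nonneg_right hF2 (by positivity)
  · rw [hW3]
    have hv := (MM_val K c0 lam h kap ep hlam hprod (FP κ n)).mul_left (lam ^ (∑ s, n s))
    rw [← hv.tsum_eq, KD.jc, ← tsum_mul_left]
    refine tsum_congr fun m ↦ ?_
    rw [mul_left_comm, ← FP_val K lam h kap ep hlam κ n m]
    ring

end AZ
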