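import Pool.Agent.H32.AZ.C
import Pool.Agent.H32.AZ.L

/-!
# MP_ede373: criterion for two algebraically independent numbers

`criterion2`: interpolation determinants with size exponent `ea`, lower bound exponent `eb`, upper bound
exponent `eg` on a half space and `(eb - eg + ea + 1) p < eb (p - q)` for some `κ = p / q < 2` give two
algebraically independent numbers.
-/

set_option autoImplicit false

namespace AZ

open MvPolynomial CZ
open H32.T3 (nrm)

theorem appr_of_alg1_aux {k : ℕ} (θ : ℂ) (hθ : Transcendental ℚ θ)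
    (P : Fin k → ℂ)
    (hP : ∀ i, IsAlgebraic (IntermediateField.adjoin ℚ (Set.range ![θ])) (P i)) (j : ℕ) :
    ∃ (m : ℕ) (Q : Fin m → ℂ), Set.range ![θ] ⊆ Set.range Q ∧
      (∀ i : Fin k, (i : ℕ) < j → P i ∈ Set.range Q) ∧ ∀ κ : ℝ, κ < 2 → Appr Q κ := by
  induction j with
  | zero => exact ⟨1, ![θ], subset_rfl, fun i hi ↦ absurd hi (Nat.not_lt_zero _),
      fun κ hκ ↦ line θ hθ κ hκ⟩
  | succ j ih =>
    obtain ⟨m, Q, hQ, hQP, hA⟩ := ih
    by_cases hj : j < k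
    · refine ⟨m + 1, (Fin.snoc Q (P ⟨j, hj⟩) : Fin (m + 1) → ℂ), ?_, ?_, ?_⟩
      · intro z hz
        obtain ⟨i, rfl⟩ := hQ hz
        exact ⟨i.castSucc, by simp⟩
      · intro i hi
        rcases Nat.lt_succ_iff_lt_or_eq.mp hi with h | h
        · obtain ⟨l, hl⟩ := hQP i h
          exact ⟨l.castSucc, by simpa using hl⟩
        · refine ⟨Fin.last m, ?_⟩
          have : i = ⟨j, hj⟩ := Fin.ext h
          simp [this]
      · intro κ hκ
        have hmax : max κ 1 < (2 : ℝ) := max_lt hκ (by norm_num)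
        obtain ⟨κ2, h1, h2⟩ := exists_between hmax
        exact appr_ext Q _ (isAlgebraic_of_adjoin_le hQ _ (hP ⟨j, hj⟩)) κ2 κ
          ((le_max_right _ _).trans_lt h1) ((le_max_left _ _).trans_lt h1) (hA κ2 h2)
    · refine ⟨m, Q, hQ, fun i hi ↦ hQP i ?_, hA⟩
      have := i.2
      omega

theorem appr_of_alg1 {k : ℕ} (θ : ℂ) (hθ : Transcendental ℚ θ) (P : Fin k → ℂ)
    (hP : ∀ i, IsAlgebraic (IntermediateField.adjoin ℚ (Set.range ![θ])) (P i))
    (κ : ℝ) (hκ : κ < 2) : Appr P κ := by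
  obtain ⟨m, Q, -, hQP, hA⟩ := appr_of_alg1_aux θ hθ P hP k
  choose f hf using fun i : Fin k ↦ hQP i i.2
  have h := appr_reindex Q f κ (hA κ hκ)
  have hPQ : (fun i ↦ Q (f i)) = P := funext hf
  rwa [hPQ] at h

theorem exists_basis1 {k : ℕ} (P : Fin k → ℂ)
    (h : ¬ ∃ f : Fin 2 → Fin k, AlgebraicIndependent ℚ (fun i ↦ P (f i))) :
    ∃ θ : ℂ, Transcendental ℚ θ ∧
      ∀ i, IsAlgebraic (IntermediateField.adjoin ℚ (Set.range ![θ])) (P i) := by
  obtain ⟨B, hB⟩ := (AlgebraicIndependent.matroid ℚ ℂ).exists_isBasis (Set.range P)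
  rw [AlgebraicIndependent.matroid_isBasis_iff] at hB
  obtain ⟨hBi, hBP, hBa⟩ := hB
  have hB1 : B.encard ≤ 1 := by
    by_contra hcon
    have h2 : 2 ≤ B.encard := by
      have h0 : (1 : ℕ∞) + 1 ≤ B.encard := Order.add_one_le_of_lt (not_le.1 hcon)
      exact h0
    obtain ⟨t, htB, ht⟩ := Set.exists_subset_encard_eq h2
    obtain ⟨x, y, hxy, rfl⟩ := Set.encard_eq_two.1 ht
    have hx : x ∈ B := htB (by simp)
    have hy : y ∈ B := htB (by simp)
    obtain ⟨i1, h1⟩ := hBP hx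
    obtain ⟨i2, h2⟩ := hBP hy
    refine h ⟨![i1, i2], ?_⟩
    have hg : Function.Injective (![⟨x, hx⟩, ⟨y, hy⟩] : Fin 2 → B) := by
      intro i j hij
      fin_cases i <;> fin_cases j <;> simp_all
    have h4 := AlgebraicIndependent.comp hBi _ hg
    convert h4 using 1
    funext i
    fin_cases i
    · exact h1
    · exact h2
  obtain ⟨S, hBS, hS⟩ := exists_isTranscendenceBasis_superset hBi
  have hSinf : S.encard = ⊤ := by
    have h1 := IsAlgClosed.cardinal_eq_cardinal_transcendence_basis_of_aleph0_lt' _ hS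
      (by simp) (by rw [Cardinal.mk_complex]; exact Cardinal.aleph0_lt_continuum)
    have h2 : Infinite S := by
      rw [← Cardinal.aleph0_le_mk_iff, ← h1, Cardinal.mk_complex]
      exact Cardinal.aleph0_le_continuum
    exact (Set.infinite_coe_iff.1 h2).encard_eq
  obtain ⟨U, hBU, hUS, hU⟩ := Set.exists_superset_subset_encard_eq hBS hB1 (by rw [hSinf]; exact le_top)
  obtain ⟨θ, rfl⟩ := Set.encard_eq_one.1 hU
  have h1 : θ ∈ S := hUS (by simp)
  refine ⟨θ, ?_, ?_⟩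
  · exact hS.1.transcendental ⟨θ, h1⟩
  · intro i
    refine Xc_up ?_ (hBa (P i) ⟨i, rfl⟩)
    intro x hx
    have h3 : Algebra.adjoin ℚ B ≤ (IntermediateField.adjoin ℚ (Set.range ![θ])).toSubalgebra := by
      refine Algebra.adjoin_le fun w hw => ?_
      refine IntermediateField.subset_adjoin ℚ _ ?_
      have h5 : w = θ := hBU hw
      exact ⟨0, h5.symm⟩
    exact h3 hx

/-- The criterion. `ea`: exponent of the size, `eb`: exponent of the lower bound, `eg`: exponent of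
the upper bound on the half space. -/
theorem criterion2 {m : ℕ} (P : Fin m → ℂ) (ea eg eb p q : ℕ) (hea : 0 < ea) (hqp : q < p)
    (hp : p < 2 * q) (hge : eg ≤ eb) (hex : (eb - eg + ea + 1) * p < eb * (p - q))
    (hyp : ∃ M0 : ℕ, ∀ M : ℕ, M0 ≤ M → ∃ (Λ : Type) (_ : Fintype Λ) (R : Type)
      (W : R → Λ → MvPolynomial (Fin m) ℤ),
      0 < Fintype.card Λ ∧ Real.log (Fintype.card Λ) ≤ M ∧
      (∀ s l, ((W s l).totalDegree : ℝ) ≤ (M : ℝ) ^ ea ∧
        nrm (W s l) ≤ Real.exp ((M : ℝ) ^ ea)) ∧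
      (∀ c : Λ → ℂ, (∀ l, ‖c l‖ ≤ 1) → (∃ l, ‖c l‖ = 1) →
        ∃ s, Real.exp (-(M : ℝ) ^ eb) ≤ ‖∑ l, c l * aeval P (W s l)‖) ∧
      (∃ V : Submodule ℂ (Λ → ℂ), Fintype.card Λ ≤ 2 * Module.finrank ℂ V ∧
        ∀ c ∈ V, (∀ l, ‖c l‖ ≤ 1) → ∀ s,
          ‖∑ l, c l * aeval P (W s l)‖ ≤ Real.exp (-(M : ℝ) ^ eg))) :
    ∃ f : Fin 2 → Fin m, AlgebraicIndependent ℚ (fun i ↦ P (f i)) := by
  by_contra hcon
  obtain ⟨θ, hθ, halg⟩ := exists_basis1 P hcon
  have hq0 : (0 : ℝ) < q := by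
    have : 0 < q := by omega
    exact_mod_cast this
  have hκ2 : (p : ℝ) / q < 2 := by
    rw [div_lt_iff₀ hq0]
    exact_mod_cast hp
  have hA := appr_of_alg1 θ hθ P halg ((p : ℝ) / q) hκ2
  have hab : ea < eb := by
    by_contra hle
    have h1 : eb ≤ ea := not_lt.1 hle
    have h2 : eb * (p - q) ≤ (eb - eg + ea + 1) * p :=
      Nat.mul_le_mul (by omega) (Nat.sub_le _ _)
    omega
  obtain ⟨M0, hM0⟩ := hyp
  obtain ⟨M1, hM1⟩ := core_ineq P ea eg eb hea hab
  refine cf_gen P eb eg (ea + 1) (eb - eg) (eb - eg + (ea + 1))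
    (eb * (p - q) - (eb - eg + (ea + 1)) * p) (p - q) q p ((p : ℝ) / q) (by omega) rfl
    (by omega) (div_mul_cancel₀ _ hq0.ne') ?_ ?_ (by omega) (by omega) (max M0 M1) ?_ hA
  · have : (eb - eg + (ea + 1)) * p < eb * (p - q) := hex
    omega
  · have : (eb - eg + (ea + 1)) * p < eb * (p - q) := hex
    omega
  · intro M hM E iF iN x S d t hf hx hd hex
    obtain ⟨Λ, iΛ, R, W, hc0, hcM, hW, hlow, hup⟩ := hM0 M (le_trans (le_max_left _ _) hM)
    exact hM1 M (le_trans (le_max_right _ _) hM) Λ iΛ R W hc0 hcM hW hlow hup E iF iN x S d t hf hx hd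
      hex

end AZ
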