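import Pool.Agent.H32.CZ.Ch

/-!
# MP_ede373: the criterion with general exponents, part 1

The rows `Cg`, `Ck`, `Ce`, `Cf` of `Pool/Agent/H32/CZ` with symbolic exponents: degree and logarithm of the size
at most `M ^ ea`, lower bound `exp (-M ^ eb)`, upper bound on the half space `exp (-M ^ eg)`.
-/

set_option autoImplicit false

namespace AZ

open MvPolynomial CZ
open H32.T3 (nrm)

theorem exists_J {k : ℕ} (P : Fin k → ℂ) (ea eb : ℕ) (hea : 0 < ea) (hab : ea < eb) : ∃ M1 : ℕ, ∀ M : ℕ, M1 ≤ M →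
    ∀ (Λ : Type) (_ : Fintype Λ) (_ : DecidableEq Λ) (R : Type)
      (W : R → Λ → MvPolynomial (Fin k) ℤ), Real.log (Fintype.card Λ) ≤ M →
      (∀ s l, ((W s l).totalDegree : ℝ) ≤ (M : ℝ) ^ ea ∧
        nrm (W s l) ≤ Real.exp ((M : ℝ) ^ ea)) →
      (∀ c : Λ → ℂ, (∀ l, ‖c l‖ ≤ 1) → (∃ l, ‖c l‖ = 1) →
        ∃ s, Real.exp (-(M : ℝ) ^ eb) ≤ ‖∑ l, c l * aeval P (W s l)‖) →
    ∀ Q : Fin k → ℂ, (∀ i, ‖Q i - P i‖ ≤ Real.exp (-(3 * (M : ℝ) ^ eb))) →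
      ∃ J : Λ → R, (Matrix.of fun i l ↦ aeval Q (W (J i) l)).det ≠ 0 := by
  obtain ⟨B, hB⟩ : ∃ B : ℝ, B = 2 + ∑ i, ‖P i‖ := ⟨_, rfl⟩
  have hPs : ∀ i, ‖P i‖ ≤ ∑ i, ‖P i‖ := fun i =>
    Finset.single_le_sum (f := fun i => ‖P i‖) (fun j _ => norm_nonneg _) (Finset.mem_univ i)
  have hB2 : 2 ≤ B := by
    rw [hB]
    have : 0 ≤ ∑ i, ‖P i‖ := Finset.sum_nonneg fun i _ => norm_nonneg _
    linarith
  have hB1 : 1 ≤ B := by linarith
  have hlB : 0 ≤ Real.log B := Real.log_nonneg hB1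
  have hPB : ∀ i, ‖P i‖ ≤ B := fun i => by
    have := hPs i
    linarith
  refine ⟨⌈3 + Real.log B⌉₊, ?_⟩
  intro M hM Λ _ _ R W hcard hW hZ Q hQ
  have hM' : 3 + Real.log B ≤ (M : ℝ) := (Nat.le_ceil _).trans (by exact_mod_cast hM)
  have hM3 : 3 ≤ (M : ℝ) := by linarith
  have hM1 : 1 ≤ (M : ℝ) := by linarith
  have hMN : (M : ℝ) ≤ (M : ℝ) ^ ea := le_self_pow₀ hM1 hea.ne'
  have hNZ : (M : ℝ) ^ ea * M ≤ (M : ℝ) ^ eb := by
    rw [← pow_succ]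
    exact pow_le_pow_right₀ hM1 (by omega)
  have hdeg : ∀ s l, (W s l).totalDegree ≤ M ^ ea := by
    intro s l
    have h := (hW s l).1
    have h2 : ((W s l).totalDegree : ℝ) ≤ ((M ^ ea : ℕ) : ℝ) := by
      rw [Nat.cast_pow]
      exact h
    exact Nat.cast_le.1 h2
  have hNc : ((M ^ ea : ℕ) : ℝ) = (M : ℝ) ^ ea := Nat.cast_pow _ _
  generalize hNn : M ^ ea = Nn at hdeg hNc
  generalize (M : ℝ) ^ ea = N at hMN hNZ hNc hW
  generalize (M : ℝ) ^ eb = Z at hNZ hZ hQ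
  have hN1 : 1 ≤ N := by linarith
  have hN0 : 0 < N := by linarith
  have hZ0 : 0 < Z := by nlinarith
  have hδ1 : Real.exp (-(3 * Z)) ≤ 1 := Real.exp_le_one_iff.2 (by linarith)
  have hQB : ∀ i, ‖Q i‖ ≤ B := by
    intro i
    have h1 : ‖Q i‖ ≤ ‖Q i - P i‖ + ‖P i‖ := by
      have := norm_add_le (Q i - P i) (P i)
      rwa [sub_add_cancel] at this
    have h2 := hQ i
    have h3 := hPs i
    linarith
  apply exists_det_ne_zero (fun s l => aeval Q (W s l))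
  intro c hc
  by_contra hcon
  push Not at hcon
  have hne : ∃ l, c l ≠ 0 := Function.ne_iff.1 hc
  obtain ⟨l1, hl1⟩ := hne
  haveI : Nonempty Λ := ⟨l1⟩
  obtain ⟨l0, hl0⟩ := Finite.exists_max (fun l => ‖c l‖)
  have hm0 : 0 < ‖c l0‖ := lt_of_lt_of_le (norm_pos_iff.2 hl1) (hl0 l1)
  have hcn : ∀ l, ‖c l * ((‖c l0‖ : ℝ) : ℂ)⁻¹‖ = ‖c l‖ / ‖c l0‖ := by
    intro l
    rw [norm_mul, norm_inv, Complex.norm_real, norm_norm, div_eq_mul_inv]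
  obtain ⟨s, hs⟩ := hZ (fun l => c l * ((‖c l0‖ : ℝ) : ℂ)⁻¹)
    (fun l => by
      rw [hcn, div_le_one hm0]
      exact hl0 l)
    ⟨l0, by rw [hcn, div_self hm0.ne']⟩
  have h0 : ∑ l, (c l * ((‖c l0‖ : ℝ) : ℂ)⁻¹) * aeval Q (W s l) = 0 := by
    have e : ∀ l ∈ (Finset.univ : Finset Λ), (c l * ((‖c l0‖ : ℝ) : ℂ)⁻¹) * aeval Q (W s l) =
        (c l * aeval Q (W s l)) * ((‖c l0‖ : ℝ) : ℂ)⁻¹ := fun l _ => by ring
    rw [Finset.sum_congr rfl e, ← Finset.sum_mul, hcon s, zero_mul]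
  have hdiff : ‖∑ l, (c l * ((‖c l0‖ : ℝ) : ℂ)⁻¹) * aeval P (W s l)‖ ≤
      (Fintype.card Λ : ℝ) * (Real.exp N * (N * B ^ Nn * Real.exp (-(3 * Z)))) := by
    have e : ∑ l, (c l * ((‖c l0‖ : ℝ) : ℂ)⁻¹) * aeval P (W s l) =
        ∑ l, -((c l * ((‖c l0‖ : ℝ) : ℂ)⁻¹) * (aeval Q (W s l) - aeval P (W s l))) := by
      have e2 : ∀ l ∈ (Finset.univ : Finset Λ),
          -((c l * ((‖c l0‖ : ℝ) : ℂ)⁻¹) * (aeval Q (W s l) - aeval P (W s l))) =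
          (c l * ((‖c l0‖ : ℝ) : ℂ)⁻¹) * aeval P (W s l) -
            (c l * ((‖c l0‖ : ℝ) : ℂ)⁻¹) * aeval Q (W s l) := fun l _ => by ring
      rw [Finset.sum_congr rfl e2, Finset.sum_sub_distrib, h0, sub_zero]
    rw [e]
    have h1 := norm_sum_le (Finset.univ : Finset Λ)
      (fun l => -((c l * ((‖c l0‖ : ℝ) : ℂ)⁻¹) * (aeval Q (W s l) - aeval P (W s l))))
    refine h1.trans ?_
    have h2 : ∀ l ∈ (Finset.univ : Finset Λ),
        ‖-((c l * ((‖c l0‖ : ℝ) : ℂ)⁻¹) * (aeval Q (W s l) - aeval P (W s l)))‖ ≤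
        Real.exp N * (N * B ^ Nn * Real.exp (-(3 * Z))) := by
      intro l _
      rw [norm_neg, norm_mul, hcn]
      have g1 : ‖c l‖ / ‖c l0‖ ≤ 1 := by
        rw [div_le_one hm0]
        exact hl0 l
      have g2 := aeval_sub_le (W s l) Nn (hdeg s l) P Q B (Real.exp (-(3 * Z))) hB1 hPB hQB hQ (Real.exp_pos _).le
      rw [hNc] at g2
      have g3 : nrm (W s l) * (N * B ^ Nn * Real.exp (-(3 * Z))) ≤
          Real.exp N * (N * B ^ Nn * Real.exp (-(3 * Z))) :=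
        mul_le_mul_of_nonneg_right (hW s l).2 (by positivity)
      calc ‖c l‖ / ‖c l0‖ * ‖aeval Q (W s l) - aeval P (W s l)‖
          ≤ 1 * ‖aeval Q (W s l) - aeval P (W s l)‖ :=
            mul_le_mul_of_nonneg_right g1 (norm_nonneg _)
        _ = ‖aeval Q (W s l) - aeval P (W s l)‖ := one_mul _
        _ ≤ _ := g2.trans g3
    refine (Finset.sum_le_sum h2).trans (le_of_eq ?_)
    rw [Finset.sum_const, Finset.card_univ, nsmul_eq_mul]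
  have hL0 : 0 < (Fintype.card Λ : ℝ) := by exact_mod_cast Fintype.card_pos
  have hL : (Fintype.card Λ : ℝ) ≤ Real.exp M := (Real.log_le_iff_le_exp hL0).1 hcard
  have hNe : N ≤ Real.exp N := by
    have := Real.add_one_le_exp N
    linarith
  have hBe : B ^ Nn = Real.exp (N * Real.log B) := by
    rw [← hNc, mul_comm, Real.exp_mul, Real.exp_log (by linarith), Real.rpow_natCast]
  have hbig : (Fintype.card Λ : ℝ) * (Real.exp N * (N * B ^ Nn * Real.exp (-(3 * Z)))) ≤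
      Real.exp (M + N + N + N * Real.log B + -(3 * Z)) := by
    rw [hBe, Real.exp_add, Real.exp_add, Real.exp_add, Real.exp_add]
    have h1 : Real.exp N * (N * Real.exp (N * Real.log B) * Real.exp (-(3 * Z))) ≤
        Real.exp N * (Real.exp N * Real.exp (N * Real.log B) * Real.exp (-(3 * Z))) := by
      gcongr
    calc (Fintype.card Λ : ℝ) *
          (Real.exp N * (N * Real.exp (N * Real.log B) * Real.exp (-(3 * Z))))
        ≤ Real.exp M *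
          (Real.exp N * (Real.exp N * Real.exp (N * Real.log B) * Real.exp (-(3 * Z)))) := by
          exact mul_le_mul hL h1 (by positivity) (by positivity)
      _ = _ := by ring
  have hfin : Real.exp (M + N + N + N * Real.log B + -(3 * Z)) < Real.exp (-Z) := by
    apply Real.exp_lt_exp.2
    have h1 : N * (3 + Real.log B) ≤ N * M := mul_le_mul_of_nonneg_left hM' hN0.le
    nlinarith
  linarith

theorem log_det_ge {k : ℕ} (P : Fin k → ℂ) (ea eg : ℕ) (hea : 0 < ea) : ∃ M1 : ℕ, ∀ M : ℕ, M1 ≤ M →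
    ∀ (Λ : Type) (_ : Fintype Λ) (_ : DecidableEq Λ) (R : Type)
      (W : R → Λ → MvPolynomial (Fin k) ℤ), 0 < Fintype.card Λ → Real.log (Fintype.card Λ) ≤ M →
      (∀ s l, ((W s l).totalDegree : ℝ) ≤ (M : ℝ) ^ ea ∧
        nrm (W s l) ≤ Real.exp ((M : ℝ) ^ ea)) →
      (∃ V : Submodule ℂ (Λ → ℂ), Fintype.card Λ ≤ 2 * Module.finrank ℂ V ∧
        ∀ c ∈ V, (∀ l, ‖c l‖ ≤ 1) → ∀ s,
          ‖∑ l, c l * aeval P (W s l)‖ ≤ Real.exp (-(M : ℝ) ^ eg)) →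
    ∀ (Q : Fin k → ℂ) (δ : ℝ), 0 ≤ δ → (∀ i, ‖Q i - P i‖ ≤ Real.exp (-δ)) →
      ∀ J : Λ → R, (Matrix.of fun i l ↦ aeval Q (W (J i) l)).det ≠ 0 →
        (Fintype.card Λ : ℝ) / 2 * min ((M : ℝ) ^ eg) δ
            - 2 * Fintype.card Λ * (M : ℝ) ^ (ea + 1) ≤
          -Real.log ‖(Matrix.of fun i l ↦ aeval Q (W (J i) l)).det‖ := by
  set B : ℝ := 2 + ∑ i, ‖P i‖ with hB
  have hs0 : 0 ≤ ∑ i, ‖P i‖ := Finset.sum_nonneg fun i _ => norm_nonneg _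
  have hB1 : 1 ≤ B := by rw [hB]; linarith
  have hPB : ∀ i, ‖P i‖ + 1 ≤ B := by
    intro i
    have := Finset.single_le_sum (f := fun i => ‖P i‖) (fun j _ => norm_nonneg _) (Finset.mem_univ i)
    rw [hB]
    linarith
  have hlB : 0 ≤ Real.log B := Real.log_nonneg hB1
  refine ⟨⌈7 + Real.log B⌉₊, ?_⟩
  intro M hM Λ _ _ R W hL hLM hW hV Q δ hδ hQ J hdet
  obtain ⟨V, hV1, hV2⟩ := hV
  have hM' : 7 + Real.log B ≤ M := (Nat.le_ceil _).trans (by exact_mod_cast hM)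
  have hM1 : (1 : ℝ) ≤ M := by linarith
  refine Ck_core P B ((M : ℝ) ^ (ea + 1)) ((M : ℝ) ^ eg) δ M (M ^ ea) hB1 hPB ?_ Λ R W hL hLM
    (fun s l => ?_) V hV1 hV2 Q hδ hQ J hdet
  · have h1 : (M : ℝ) ≤ (M : ℝ) ^ ea := le_self_pow₀ hM1 hea.ne'
    have h2 : ((M ^ ea : ℕ) : ℝ) = (M : ℝ) ^ ea := by push_cast; rfl
    have h3 : (M : ℝ) ^ (ea + 1) = (M : ℝ) ^ ea * M := pow_succ _ _
    rw [h2, h3]
    generalize (M : ℝ) ^ ea = Y at h1 ⊢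
    have h4 : Y * (7 + Real.log B) ≤ Y * M := mul_le_mul_of_nonneg_left hM' (by linarith)
    linarith
  · have h2 : ((M ^ ea : ℕ) : ℝ) = (M : ℝ) ^ ea := by push_cast; rfl
    obtain ⟨h3, h4⟩ := hW s l
    rw [← h2] at h3 h4
    exact ⟨by exact_mod_cast h3, h4⟩

theorem core_ineq {k : ℕ} (P : Fin k → ℂ) (ea eg eb : ℕ) (hea : 0 < ea) (hab : ea < eb) : ∃ M1 : ℕ, ∀ M : ℕ, M1 ≤ M →
    ∀ (Λ : Type) (_ : Fintype Λ) (R : Type) (W : R → Λ → MvPolynomial (Fin k) ℤ),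
      0 < Fintype.card Λ → Real.log (Fintype.card Λ) ≤ M →
      (∀ s l, ((W s l).totalDegree : ℝ) ≤ (M : ℝ) ^ ea ∧
        nrm (W s l) ≤ Real.exp ((M : ℝ) ^ ea)) →
      (∀ c : Λ → ℂ, (∀ l, ‖c l‖ ≤ 1) → (∃ l, ‖c l‖ = 1) →
        ∃ s, Real.exp (-(M : ℝ) ^ eb) ≤ ‖∑ l, c l * aeval P (W s l)‖) →
      (∃ V : Submodule ℂ (Λ → ℂ), Fintype.card Λ ≤ 2 * Module.finrank ℂ V ∧
        ∀ c ∈ V, (∀ l, ‖c l‖ ≤ 1) → ∀ s,
          ‖∑ l, c l * aeval P (W s l)‖ ≤ Real.exp (-(M : ℝ) ^ eg)) →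
    ∀ (E : Type) (_ : Field E) (_ : NumberField E) (x : Fin k → E) (S : Finset (E →+* ℂ))
      (d : (E →+* ℂ) → ℝ) (t : ℝ), (Module.finrank ℚ E : ℝ) ≤ t → (∀ i, hE (x i) ≤ t) →
      (∀ φ ∈ S, 0 ≤ d φ ∧ ∀ i, ‖φ (x i) - P i‖ ≤ Real.exp (-d φ)) →
      (∃ φ ∈ S, 3 * (M : ℝ) ^ eb ≤ d φ) →
      ∑ φ ∈ S, min ((M : ℝ) ^ eg) (d φ) ≤ (2 * k + 10) * t * (M : ℝ) ^ (ea + 1) := by
  classical
  obtain ⟨Ma, hMa⟩ := exists_J P ea eb hea hab
  obtain ⟨Mb, hMb⟩ := log_det_ge P ea eg hea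
  refine ⟨max (max Ma Mb) 2, ?_⟩
  intro M hM Λ _ R W hL0 hLM hW hZE hV E _ _ x S d t hEt hxt hS hbig
  have hMa' : Ma ≤ M := le_trans (le_trans (le_max_left _ _) (le_max_left _ _)) hM
  have hMb' : Mb ≤ M := le_trans (le_trans (le_max_right _ _) (le_max_left _ _)) hM
  have hM2 : 2 ≤ M := le_trans (le_max_right _ _) hM
  have hM1 : (1 : ℝ) ≤ M := by
    have : (2 : ℝ) ≤ M := by exact_mod_cast hM2
    linarith
  obtain ⟨φ0, hφ0, hd0⟩ := hbig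
  obtain ⟨J, hJ⟩ := hMa M hMa' Λ inferInstance inferInstance R W hLM hW hZE (fun i ↦ φ0 (x i))
    (fun i ↦ ((hS φ0 hφ0).2 i).trans (Real.exp_le_exp.2 (neg_le_neg hd0)))
  set D : MvPolynomial (Fin k) ℤ := (Matrix.of fun i l ↦ W (J i) l).det with hD
  have hφD : ∀ φ : E →+* ℂ, φ (aeval x D) =
      (Matrix.of fun i l ↦ aeval (fun i ↦ φ (x i)) (W (J i) l)).det := by
    intro φ
    have h1 : aeval x D = (Matrix.of fun i l ↦ aeval x (W (J i) l)).det := by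
      rw [hD, AlgHom.map_det]
      rfl
    rw [h1, RingHom.map_det]
    congr 1
    ext i l
    simp only [RingHom.mapMatrix_apply, Matrix.map_apply, Matrix.of_apply]
    exact ce_map_aeval φ x _
  have hDx : aeval x D ≠ 0 := by
    intro h0
    have h1 := hφD φ0
    rw [h0, map_zero] at h1
    exact hJ h1.symm
  have hD0 : D ≠ 0 := by
    intro h0
    exact hDx (by rw [h0, map_zero])
  have hlow : ∀ φ ∈ S, (Fintype.card Λ : ℝ) / 2 * min ((M : ℝ) ^ eg) (d φ)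
            - 2 * Fintype.card Λ * (M : ℝ) ^ (ea + 1) ≤ -Real.log ‖φ (aeval x D)‖ := by
    intro φ hφ
    have h1 : (Matrix.of fun i l ↦ aeval (fun i ↦ φ (x i)) (W (J i) l)).det ≠ 0 := by
      rw [← hφD φ]
      exact (map_ne_zero φ).2 hDx
    have h2 := hMb M hMb' Λ inferInstance inferInstance R W hL0 hLM hW hV (fun i ↦ φ (x i)) (d φ)
      (hS φ hφ).1 (hS φ hφ).2 J h1
    rw [← hφD φ] at h2
    exact h2
  have htd : ∀ s l, (W s l).totalDegree ≤ M ^ ea := by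
    intro s l
    have := (hW s l).1
    exact_mod_cast this
  have hDtd : D.totalDegree ≤ Fintype.card Λ * M ^ ea :=
    totalDegree_det_le _ _ (fun i j ↦ htd _ _)
  have hli := liouville x D _ hDtd hDx S
  have hnrm : nrm D ≤ (Fintype.card Λ : ℝ) ^ Fintype.card Λ *
      Real.exp ((M : ℝ) ^ ea) ^ Fintype.card Λ :=
    nrm_det_le _ _ (Real.exp_pos _).le (fun i j ↦ (hW _ _).2)
  have hnrm1 : 1 ≤ nrm D := H32.T3.one_le_nrm hD0
  have hlog0 : 0 ≤ Real.log (nrm D) := Real.log_nonneg hnrm1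
  have hLpos : (0 : ℝ) < Fintype.card Λ := by exact_mod_cast hL0
  have hlogD : Real.log (nrm D) ≤ Fintype.card Λ * (M : ℝ) + Fintype.card Λ * (M : ℝ) ^ ea := by
    have h1 := Real.log_le_log (by linarith) hnrm
    rw [Real.log_mul (by positivity) (by positivity), Real.log_pow, Real.log_pow,
      Real.log_exp] at h1
    have h2 : (Fintype.card Λ : ℝ) * Real.log (Fintype.card Λ) ≤ Fintype.card Λ * (M : ℝ) :=
      mul_le_mul_of_nonneg_left hLM hLpos.le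
    linarith
  have hcard : ((S.card : ℕ) : ℝ) ≤ t := by
    have h1 : S.card ≤ Module.finrank ℚ E := by
      rw [← NumberField.Embeddings.card E ℂ]
      exact Finset.card_le_univ S
    exact le_trans (by exact_mod_cast h1) hEt
  have hsum : ∑ i, hE (x i) ≤ (k : ℝ) * t := by
    calc ∑ i, hE (x i) ≤ ∑ _i : Fin k, t := Finset.sum_le_sum fun i _ ↦ hxt i
      _ = (k : ℝ) * t := by simp
  have hsl : (Fintype.card Λ : ℝ) / 2 * ∑ φ ∈ S, min ((M : ℝ) ^ eg) (d φ)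
      - (S.card : ℝ) * (2 * Fintype.card Λ * (M : ℝ) ^ (ea + 1)) ≤
      -∑ φ ∈ S, Real.log ‖φ (aeval x D)‖ := by
    rw [← Finset.sum_neg_distrib]
    refine le_trans (le_of_eq ?_) (Finset.sum_le_sum hlow)
    rw [Finset.sum_sub_distrib, ← Finset.mul_sum, Finset.sum_const, nsmul_eq_mul]
  have hMp : (M : ℝ) ≤ (M : ℝ) ^ (ea + 1) := by
    calc (M : ℝ) = (M : ℝ) ^ 1 := (pow_one _).symm
      _ ≤ (M : ℝ) ^ (ea + 1) := pow_le_pow_right₀ hM1 (by omega)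
  have hNp : (M : ℝ) ^ ea ≤ (M : ℝ) ^ (ea + 1) := pow_le_pow_right₀ hM1 (by omega)
  have hfin := hsl.trans hli
  push_cast at hfin
  have hT : 0 ≤ (M : ℝ) ^ (ea + 1) := by positivity
  have hN0 : 0 ≤ (M : ℝ) ^ ea := by positivity
  exact ce_arith (Fintype.card Λ : ℝ) t (∑ i, hE (x i)) ((M : ℝ) ^ (ea + 1)) (Real.log (nrm D))
    ((M : ℝ) ^ ea) M k _ (Module.finrank ℚ E) (S.card : ℝ) hLpos (by positivity) hEt hcard
    hMp hNp (by positivity) hT hN0 hlog0 hlogD hsum hfin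

theorem cf_pow_succ (M n : ℕ) (hM : n ≤ M) (hM' : 0 < M) :
    ((M : ℝ) + 1) ^ n ≤ 3 * (M : ℝ) ^ n := by
  have hM0 : (0 : ℝ) < M := by exact_mod_cast hM'
  have h1 : (M : ℝ) + 1 ≤ M * Real.exp (1 / M) := by
    have h := Real.add_one_le_exp (1 / (M : ℝ))
    calc (M : ℝ) + 1 = M * (1 / M + 1) := by field_simp; ring
      _ ≤ M * Real.exp (1 / M) := mul_le_mul_of_nonneg_left h hM0.le
  have h2 : ((M : ℝ) + 1) ^ n ≤ (M * Real.exp (1 / M)) ^ n :=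
    pow_le_pow_left₀ (by positivity) h1 _
  rw [mul_pow, ← Real.exp_nat_mul] at h2
  have h3 : Real.exp ((n : ℝ) * (1 / (M : ℝ))) ≤ 3 := by
    calc Real.exp ((n : ℝ) * (1 / (M : ℝ))) ≤ Real.exp 1 := by
          apply Real.exp_le_exp.mpr
          rw [mul_one_div, div_le_one hM0]
          exact_mod_cast hM
      _ ≤ 3 := by
          have := Real.exp_one_lt_d9
          linarith
  refine h2.trans ?_
  rw [mul_comm (3 : ℝ)]
  exact mul_le_mul_of_nonneg_left h3 (by positivity)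

theorem cf_key (U C t : ℝ) (a b c : ℕ) (habc : a + b = c) (hU : 1 ≤ U) (hC : 0 ≤ C)
    (ht : t ^ c ≤ U ^ b) (h : U ≤ C * t) : U ^ a ≤ C ^ c := by
  have h1 : U ^ c ≤ (C * t) ^ c := pow_le_pow_left₀ (by linarith) h _
  rw [mul_pow] at h1
  have h2 : U ^ a * U ^ b ≤ C ^ c * U ^ b := by
    rw [← pow_add, habc]
    exact h1.trans (mul_le_mul_of_nonneg_left ht (by positivity))
  exact le_of_mul_le_mul_right h2 (by positivity)

theorem cf_exists_level (dm : ℝ) (M2 n : ℕ) (hn : n ≠ 0)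
    (h : 3 * ((M2 : ℝ) + 1) ^ n ≤ dm) :
    ∃ M : ℕ, M2 + 1 ≤ M ∧ 3 * (M : ℝ) ^ n ≤ dm ∧ dm < 3 * ((M : ℝ) + 1) ^ n := by
  classical
  have hex : ∃ m : ℕ, dm < 3 * ((m : ℝ) + 1) ^ n := by
    refine ⟨⌈dm⌉₊, ?_⟩
    have h1 : dm ≤ (⌈dm⌉₊ : ℝ) := Nat.le_ceil dm
    have h2 : (1 : ℝ) ≤ (⌈dm⌉₊ : ℝ) + 1 := by
      have : (0 : ℝ) ≤ (⌈dm⌉₊ : ℝ) := Nat.cast_nonneg _
      linarith
    have h3 : (⌈dm⌉₊ : ℝ) + 1 ≤ ((⌈dm⌉₊ : ℝ) + 1) ^ n := le_self_pow₀ h2 hn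
    linarith
  have hfind := Nat.find_spec hex
  have hmin : ∀ m : ℕ, m < Nat.find hex → ¬ dm < 3 * ((m : ℝ) + 1) ^ n :=
    fun m hm ↦ Nat.find_min hex hm
  obtain ⟨m0, hm0⟩ : ∃ m0, m0 = Nat.find hex := ⟨_, rfl⟩
  rw [← hm0] at hfind
  simp only [← hm0] at hmin
  have hle0 : M2 + 1 ≤ m0 := by
    by_contra hlt
    have hle : m0 ≤ M2 := by omega
    have h2 : ((m0 : ℝ) + 1) ^ n ≤ ((M2 : ℝ) + 1) ^ n := by
      apply pow_le_pow_left₀ (by positivity)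
      have : (m0 : ℝ) ≤ M2 := by exact_mod_cast hle
      linarith
    linarith
  refine ⟨m0, hle0, ?_, hfind⟩
  have h1 := hmin (m0 - 1) (by omega)
  have h2 : (((m0 - 1 : ℕ) : ℝ) + 1) = (m0 : ℝ) := by
    rw [Nat.cast_sub (by omega)]
    push_cast
    ring
  rw [h2] at h1
  exact not_lt.mp h1

theorem cf_rpow (t U κ : ℝ) (p q : ℕ) (hκ : κ * q = p) (ht : 0 ≤ t) (h : t ^ κ ≤ U) :
    t ^ p ≤ U ^ q := by
  have h1 : (t ^ κ) ^ q = t ^ p := by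
    rw [← Real.rpow_natCast, ← Real.rpow_mul ht, hκ, Real.rpow_natCast]
  rw [← h1]
  exact pow_le_pow_left₀ (Real.rpow_nonneg ht _) h _

theorem cf_min (M d : ℝ) (n1 n2 n4 : ℕ) (h : n4 + n2 = n1) (hM : 1 ≤ M) (hd0 : 0 ≤ d)
    (hd : d ≤ 9 * M ^ n1) : d ≤ 9 * M ^ n4 * min (M ^ n2) d := by
  rcases le_total (M ^ n2) d with h' | h'
  · rw [min_eq_left h', mul_assoc, ← pow_add, h]
    exact hd
  · rw [min_eq_right h']
    have h1 : (1 : ℝ) ≤ 9 * M ^ n4 := by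
      have : (1 : ℝ) ≤ M ^ n4 := one_le_pow₀ hM
      linarith
    exact le_mul_of_one_le_left hd0 h1

theorem cf_gen {k : ℕ} (P : Fin k → ℂ) (n1 n2 n3 n4 m e a b c : ℕ) (κ : ℝ)
    (h12 : n4 + n2 = n1) (h34 : n4 + n3 = m) (habc : a + b = c) (hκ : κ * b = c)
    (hexp : e + m * c = n1 * a) (he : e ≠ 0) (ha : a ≠ 0) (hn1 : n1 ≠ 0) (M0 : ℕ)
    (core : ∀ M : ℕ, M0 ≤ M → ∀ (E : Type) (_ : Field E) (_ : NumberField E) (x : Fin k → E)
      (S : Finset (E →+* ℂ)) (d : (E →+* ℂ) → ℝ) (t : ℝ), (Module.finrank ℚ E : ℝ) ≤ t →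
      (∀ i, hE (x i) ≤ t) →
      (∀ φ ∈ S, 0 ≤ d φ ∧ ∀ i, ‖φ (x i) - P i‖ ≤ Real.exp (-d φ)) →
      (∃ φ ∈ S, 3 * (M : ℝ) ^ n1 ≤ d φ) →
      ∑ φ ∈ S, min ((M : ℝ) ^ n2) (d φ) ≤ (2 * k + 10) * t * (M : ℝ) ^ n3) :
    ¬ Appr P κ := by
  intro hA
  obtain ⟨C, hC⟩ : ∃ C : ℕ, C = 9 * (2 * k + 10) := ⟨_, rfl⟩
  obtain ⟨C', hC'⟩ : ∃ C' : ℕ, C' = C ^ c := ⟨_, rfl⟩
  obtain ⟨M2, hM2⟩ : ∃ M2 : ℕ, M2 = M0 + n1 + C' := ⟨_, rfl⟩
  obtain ⟨C0, hC0⟩ : ∃ C0 : ℝ, C0 = 3 * ((M2 : ℝ) + 1) ^ n1 := ⟨_, rfl⟩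
  have hC0pos : 0 < C0 := by rw [hC0]; positivity
  obtain ⟨t, V, ht1, hUV, htV, E, iF, iN, x, S, d, hf, hx, hd, hV⟩ := hA (C0 ^ c + 1)
  obtain ⟨U, hU⟩ : ∃ U : ℝ, U = ∑ φ ∈ S, d φ := ⟨_, rfl⟩
  have hVU : V ≤ U := by rw [hU]; exact hV
  have hCU : C0 ^ c + 1 ≤ U := hUV.trans hVU
  have hCc : (0 : ℝ) ≤ C0 ^ c := by positivity
  have hU1 : 1 ≤ U := by linarith
  have htc : t ^ c ≤ U ^ b := cf_rpow t U κ c b hκ (by linarith) (htV.trans hVU)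
  have hne : S.Nonempty := by
    rw [Finset.nonempty_iff_ne_empty]
    intro h0
    rw [h0, Finset.sum_empty] at hU
    linarith
  obtain ⟨φ0, hφ0, hmax⟩ := Finset.exists_max_image S d hne
  have hcard : (S.card : ℝ) ≤ t := by
    have h1 : S.card ≤ Module.finrank ℚ E := by
      rw [← NumberField.Embeddings.card E ℂ]
      exact Finset.card_le_univ S
    exact le_trans (by exact_mod_cast h1) hf
  have hUdm : U ≤ t * d φ0 := by
    have h1 : U ≤ S.card • d φ0 := by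
      rw [hU]
      exact Finset.sum_le_card_nsmul S d (d φ0) hmax
    rw [nsmul_eq_mul] at h1
    exact h1.trans (mul_le_mul_of_nonneg_right hcard (hd φ0 hφ0).1)
  have hdm : C0 ≤ d φ0 := by
    by_contra hlt
    push Not at hlt
    have h1 : U ≤ C0 * t := by
      have : t * d φ0 ≤ t * C0 := mul_le_mul_of_nonneg_left hlt.le (by linarith)
      linarith [mul_comm t C0]
    have h2 := cf_key U C0 t a b c habc hU1 hC0pos.le htc h1
    have h3 : U ≤ U ^ a := le_self_pow₀ hU1 ha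
    linarith
  rw [hC0] at hdm
  obtain ⟨M, hMM, hMd, hdM⟩ := cf_exists_level (d φ0) M2 n1 hn1 hdm
  have hMn1 : n1 ≤ M := by omega
  have hMC : C' < M := by omega
  have hM0 : 0 < M := by omega
  have hdM9 : d φ0 ≤ 9 * (M : ℝ) ^ n1 := by
    have h1 := cf_pow_succ M n1 hMn1 hM0
    linarith
  have hM1' : (1 : ℝ) ≤ M := by exact_mod_cast hM0
  have hcore := core M (by omega) E iF iN x S d t hf hx hd ⟨φ0, hφ0, hMd⟩
  have hmin : ∀ φ ∈ S, d φ ≤ 9 * (M : ℝ) ^ n4 * min ((M : ℝ) ^ n2) (d φ) := by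
    intro φ hφ
    exact cf_min M (d φ) n1 n2 n4 h12 hM1' (hd φ hφ).1 ((hmax φ hφ).trans hdM9)
  have hUle : U ≤ 9 * (M : ℝ) ^ n4 * ((2 * k + 10) * t * (M : ℝ) ^ n3) := by
    calc U = ∑ φ ∈ S, d φ := hU
      _ ≤ ∑ φ ∈ S, 9 * (M : ℝ) ^ n4 * min ((M : ℝ) ^ n2) (d φ) := Finset.sum_le_sum hmin
      _ = 9 * (M : ℝ) ^ n4 * ∑ φ ∈ S, min ((M : ℝ) ^ n2) (d φ) := by rw [Finset.mul_sum]
      _ ≤ 9 * (M : ℝ) ^ n4 * ((2 * k + 10) * t * (M : ℝ) ^ n3) :=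
        mul_le_mul_of_nonneg_left hcore (by positivity)
  have hUle' : U ≤ ((C : ℝ) * (M : ℝ) ^ m) * t := by
    have h1 : (M : ℝ) ^ m = (M : ℝ) ^ n4 * (M : ℝ) ^ n3 := by rw [← pow_add, h34]
    rw [h1, hC]
    push_cast
    calc U ≤ 9 * (M : ℝ) ^ n4 * ((2 * k + 10) * t * (M : ℝ) ^ n3) := hUle
      _ = _ := by ring
  have h49 := cf_key U ((C : ℝ) * (M : ℝ) ^ m) t a b c habc hU1 (by positivity) htc hUle'
  rw [mul_pow, ← pow_mul] at h49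
  have hdU : d φ0 ≤ U := by
    rw [hU]
    exact Finset.single_le_sum (fun φ hφ ↦ (hd φ hφ).1) hφ0
  have hMU : (M : ℝ) ^ n1 ≤ U := by
    have h0 : (0 : ℝ) ≤ (M : ℝ) ^ n1 := by positivity
    linarith
  have h217 : (M : ℝ) ^ (n1 * a) ≤ U ^ a := by
    rw [pow_mul]
    exact pow_le_pow_left₀ (by positivity) hMU _
  have hfin : (M : ℝ) ^ e * (M : ℝ) ^ (m * c) ≤ (C : ℝ) ^ c * (M : ℝ) ^ (m * c) := by
    rw [← pow_add, hexp]
    exact h217.trans h49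
  have hfin' : (M : ℝ) ^ e ≤ (C : ℝ) ^ c :=
    le_of_mul_le_mul_right hfin (by positivity)
  have h1 : (M : ℝ) ≤ (M : ℝ) ^ e := le_self_pow₀ hM1' he
  have h2 : ((C' : ℕ) : ℝ) = (C : ℝ) ^ c := by rw [hC']; push_cast; rfl
  rw [← h2] at hfin'
  have h3 : (M : ℝ) ≤ (C' : ℝ) := h1.trans hfin'
  have h4 : M ≤ C' := by exact_mod_cast h3
  omega

end AZ
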