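import Mathlib

/-!
# MP_ede373, all algebraic points, row Fo: the theta function is `jacobiTheta₂`

`f s = A s`. For `n : ℤ` let `g_n s = A s * exp (-2 π i n s)`: entire, `g_n (s + 1) = g_n s`. For complex `w` put
`I_n(w) = ∫ x in 0..1, g_n (w + x)`. Claim: `I_n(w) = I_n(0)`. (Its derivative in `w` is `∫ g_n'(w + x) dx = g_n (w+1) - g_n w = 0`;
or: for real `w` by periodicity (`Function.Periodic.intervalIntegral_add_eq`), for `w = i y` by Cauchy's theorem on the
rectangle `[0,1] × [0,y]` (`Complex.integral_boundary_rect_eq_zero_of_differentiableOn`) where the vertical sides cancel by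
periodicity; or: primitive `G` of the entire function `g_n` (`Differentiable.isExactOn`/`exists_primitive` style) has
`G (w + 1) - G w` constant since its derivative vanishes.)
Let `a_n = I_n(0)`. With `w = z` and `A (x + z) = -exp(-π i z - 2 π i x) A x`:
`a_n = ∫ A(x+z) exp(-2πi n (x+z)) = -exp(-πi z - 2πi n z) ∫ A x exp(-2πi (n+1) x) = -exp(-πi z - 2πi n z) a_(n+1)`, so
`a_(n+1) = -exp(πi z + 2πi n z) a_n`, and `a_n = a_0 (-1)^n exp(πi n^2 z)` for all `n : ℤ` (`Int.induction_on`).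
So `‖a_n‖ = ‖a_0‖ exp(-π n^2 Im z)` is summable (`summable_pow_mul_jacobiTheta₂_term_bound` with `k = 0, S = 0`,
or compare with `jacobiTheta₂_term`). `a_n` is the Fourier coefficient of the continuous function `x ↦ A x` on
`AddCircle 1` (`Function.Periodic.lift`, `fourierCoeff_eq_intervalIntegral`), so by
`has_pointwise_sum_fourier_series_of_summable`, for real `x`: `A x = ∑ a_n exp(2πi n x) = a_0 jacobiTheta₂ (x + 1/2) z`
(`jacobiTheta₂_term n (x+1/2) z = exp(2πi n x + πi n + πi n^2 z)`, `exp(πi n) = (-1)^n`).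
Both sides are entire (`differentiableAt_jacobiTheta₂_fst`), equal on the real axis, so equal
(`AnalyticOnNhd.eq_of_frequently_eq` at `0`, real points accumulate at `0`). `a_0 ≠ 0` as `A 0 = 1`.
-/

set_option autoImplicit false

namespace AZ

open Complex

/-- the mean over a period does not depend on the starting point -/
theorem Fo_shift (g : ℂ → ℂ) (dg : Differentiable ℂ g) (g1 : ∀ s, g (s + 1) = g s) (w : ℂ) :
    (∫ x in (0:ℝ)..1, g ((x : ℂ) + w)) = ∫ x in (0:ℝ)..1, g (x : ℂ) := by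
  have h1 := Complex.integral_boundary_rect_eq_zero_of_differentiableOn g 0 (1 + w.im * I)
    dg.differentiableOn
  have e1 : (1 + (w.im : ℂ) * I).re = 1 := by simp
  have e2 : (1 + (w.im : ℂ) * I).im = w.im := by simp
  rw [e1, e2] at h1
  simp only [Complex.zero_re, Complex.zero_im, Complex.ofReal_zero, Complex.ofReal_one, zero_mul,
    add_zero, zero_add] at h1
  have h2 : (fun y : ℝ => g (1 + (y : ℂ) * I)) = fun y : ℝ => g ((y : ℂ) * I) := by
    funext y
    rw [add_comm, g1]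
  have h2' : (∫ y in (0:ℝ)..w.im, g (1 + (y : ℂ) * I)) = ∫ y in (0:ℝ)..w.im, g ((y : ℂ) * I) := by
    rw [h2]
  rw [h2'] at h1
  have h3 : (∫ x in (0:ℝ)..1, g (x : ℂ)) = ∫ x in (0:ℝ)..1, g ((x : ℂ) + (w.im : ℂ) * I) := by
    have : (∫ x in (0:ℝ)..1, g (x : ℂ)) - (∫ x in (0:ℝ)..1, g ((x : ℂ) + (w.im : ℂ) * I)) = 0 := by
      linear_combination h1
    exact sub_eq_zero.mp this
  rw [h3]
  have hper : Function.Periodic (fun x : ℝ => g ((x : ℂ) + (w.im : ℂ) * I)) 1 := by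
    intro x
    have : (((x + 1 : ℝ) : ℂ) + (w.im : ℂ) * I) = ((x : ℂ) + (w.im : ℂ) * I) + 1 := by
      push_cast; ring
    show g (((x + 1 : ℝ) : ℂ) + (w.im : ℂ) * I) = g ((x : ℂ) + (w.im : ℂ) * I)
    rw [this, g1]
  have h4 := hper.intervalIntegral_add_eq 0 w.re
  have h5 : (∫ x in (0:ℝ)..1, g ((x : ℂ) + w)) =
      ∫ x in (0:ℝ)..1, (fun t : ℝ => g ((t : ℂ) + (w.im : ℂ) * I)) (x + w.re) := by
    refine intervalIntegral.integral_congr (fun x _ => ?_)
    have : (((x + w.re : ℝ) : ℂ) + (w.im : ℂ) * I) = (x : ℂ) + w := by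
      apply Complex.ext <;> simp
    show g ((x : ℂ) + w) = g (((x + w.re : ℝ) : ℂ) + (w.im : ℂ) * I)
    rw [this]
  rw [h5, intervalIntegral.integral_comp_add_right (fun t : ℝ => g ((t : ℂ) + (w.im : ℂ) * I))]
  rw [zero_add] at h4 ⊢
  rw [add_comm 1 w.re]
  exact h4.symm

/-- `A x * exp (-2 π i n x)` -/
noncomputable def Fo_g (A : ℂ → ℂ) (n : ℤ) (s : ℂ) : ℂ := A s * exp (-(2 * Real.pi * I * n * s))

noncomputable def Fo_a (A : ℂ → ℂ) (n : ℤ) : ℂ := ∫ x in (0:ℝ)..1, Fo_g A n (x : ℂ)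

theorem Fo_g_diff (A : ℂ → ℂ) (dA : Differentiable ℂ A) (n : ℤ) : Differentiable ℂ (Fo_g A n) := by
  unfold Fo_g
  fun_prop

theorem Fo_g_per (A : ℂ → ℂ) (A1 : ∀ s, A (s + 1) = A s) (n : ℤ) (s : ℂ) :
    Fo_g A n (s + 1) = Fo_g A n s := by
  unfold Fo_g
  rw [A1]
  congr 1
  have : -(2 * (Real.pi : ℂ) * I * n * (s + 1)) =
      -(2 * (Real.pi : ℂ) * I * n * s) + ((-n : ℤ) : ℂ) * (2 * Real.pi * I) := by
    push_cast; ring
  rw [this, Complex.exp_add, Complex.exp_int_mul_two_pi_mul_I, mul_one]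

theorem Fo_rec (z : ℂ) (A : ℂ → ℂ) (dA : Differentiable ℂ A)
    (A1 : ∀ s, A (s + 1) = A s)
    (Az : ∀ s, A (s + z) = -(exp (-(Real.pi * I * z) - 2 * Real.pi * I * s) * A s)) (n : ℤ) :
    Fo_a A n = exp (-(Real.pi * I * z) - 2 * Real.pi * I * n * z - Real.pi * I) * Fo_a A (n + 1) := by
  have h := Fo_shift (Fo_g A n) (Fo_g_diff A dA n) (Fo_g_per A A1 n) z
  unfold Fo_a
  rw [← h, ← intervalIntegral.integral_const_mul]
  refine intervalIntegral.integral_congr (fun x _ => ?_)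
  show Fo_g A n ((x : ℂ) + z) = exp (-(Real.pi * I * z) - 2 * Real.pi * I * n * z - Real.pi * I) *
    Fo_g A (n + 1) (x : ℂ)
  unfold Fo_g
  rw [Az]
  have hpi : exp (-(Real.pi * I)) = -1 := by
    rw [Complex.exp_neg, Complex.exp_pi_mul_I]; norm_num
  have e1 : exp (-(Real.pi * I * z) - 2 * Real.pi * I * n * z - Real.pi * I) =
      -exp (-(Real.pi * I * z) - 2 * Real.pi * I * n * z) := by
    rw [sub_eq_add_neg _ (Real.pi * I : ℂ), Complex.exp_add, hpi]; ring
  rw [e1]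
  have e2 : exp (-(Real.pi * I * z) - 2 * Real.pi * I * (x : ℂ)) *
      exp (-(2 * Real.pi * I * n * ((x : ℂ) + z))) =
      exp (-(Real.pi * I * z) - 2 * Real.pi * I * n * z) *
      exp (-(2 * Real.pi * I * ((n + 1 : ℤ) : ℂ) * (x : ℂ))) := by
    rw [← Complex.exp_add, ← Complex.exp_add]
    congr 1
    push_cast
    ring
  linear_combination (-A (x : ℂ)) * e2

theorem Fo_rec' (z : ℂ) (A : ℂ → ℂ) (dA : Differentiable ℂ A)
    (A1 : ∀ s, A (s + 1) = A s)
    (Az : ∀ s, A (s + z) = -(exp (-(Real.pi * I * z) - 2 * Real.pi * I * s) * A s)) (n : ℤ) :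
    Fo_a A (n + 1) = exp (Real.pi * I * z + 2 * Real.pi * I * n * z + Real.pi * I) * Fo_a A n := by
  rw [Fo_rec z A dA A1 Az n, ← mul_assoc, ← Complex.exp_add]
  have : (Real.pi * I * z + 2 * Real.pi * I * n * z + Real.pi * I) +
      (-(Real.pi * I * z) - 2 * Real.pi * I * n * z - Real.pi * I) = (0 : ℂ) := by ring
  rw [this, Complex.exp_zero, one_mul]

theorem Fo_val (z : ℂ) (A : ℂ → ℂ) (dA : Differentiable ℂ A)
    (A1 : ∀ s, A (s + 1) = A s)
    (Az : ∀ s, A (s + z) = -(exp (-(Real.pi * I * z) - 2 * Real.pi * I * s) * A s)) (n : ℤ) :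
    Fo_a A n = Fo_a A 0 * jacobiTheta₂_term n (1 / 2) z := by
  induction n using Int.induction_on with
  | zero => simp [jacobiTheta₂_term]
  | succ k ih =>
    rw [Fo_rec' z A dA A1 Az k, ih]
    unfold jacobiTheta₂_term
    have : exp (Real.pi * I * z + 2 * Real.pi * I * ((k : ℤ) : ℂ) * z + Real.pi * I) *
        exp (2 * Real.pi * I * ((k : ℤ) : ℂ) * (1 / 2) + Real.pi * I * ((k : ℤ) : ℂ) ^ 2 * z) =
        exp (2 * Real.pi * I * (((k : ℤ) + 1 : ℤ) : ℂ) * (1 / 2) +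
          Real.pi * I * (((k : ℤ) + 1 : ℤ) : ℂ) ^ 2 * z) := by
      rw [← Complex.exp_add]
      congr 1
      push_cast
      ring
    linear_combination (Fo_a A 0) * this
  | pred k ih =>
    rw [Fo_rec z A dA A1 Az (-(k : ℤ) - 1)]
    have hk : (-(k : ℤ) - 1 + 1) = -(k : ℤ) := by ring
    rw [hk, ih]
    unfold jacobiTheta₂_term
    have : exp (-(Real.pi * I * z) - 2 * Real.pi * I * ((-(k : ℤ) - 1 : ℤ) : ℂ) * z - Real.pi * I) *
        exp (2 * Real.pi * I * ((-(k : ℤ) : ℤ) : ℂ) * (1 / 2) +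
          Real.pi * I * ((-(k : ℤ) : ℤ) : ℂ) ^ 2 * z) =
        exp (2 * Real.pi * I * ((-(k : ℤ) - 1 : ℤ) : ℂ) * (1 / 2) +
          Real.pi * I * ((-(k : ℤ) - 1 : ℤ) : ℂ) ^ 2 * z) := by
      rw [← Complex.exp_add]
      congr 1
      push_cast
      ring
    linear_combination (Fo_a A 0) * this

theorem Fo_real (z : ℂ) (hz : 0 < z.im) (A : ℂ → ℂ) (dA : Differentiable ℂ A)
    (A1 : ∀ s, A (s + 1) = A s)
    (Az : ∀ s, A (s + z) = -(exp (-(Real.pi * I * z) - 2 * Real.pi * I * s) * A s)) (x : ℝ) :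
    A x = Fo_a A 0 * jacobiTheta₂ (x + 1 / 2) z := by
  have hper : Function.Periodic (fun x : ℝ => A (x : ℂ)) 1 := by
    intro y
    show A ((y + 1 : ℝ) : ℂ) = A (y : ℂ)
    rw [← A1 (y : ℂ)]
    push_cast
    rfl
  have hc : Continuous (fun x : ℝ => A (x : ℂ)) := dA.continuous.comp Complex.continuous_ofReal
  let F : C(UnitAddCircle, ℂ) := ⟨hper.lift, continuous_coinduced_dom.mpr hc⟩
  have hF : ∀ y : ℝ, F (y : UnitAddCircle) = A (y : ℂ) := fun y => Function.Periodic.lift_coe hper y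
  have hcoef : ∀ n : ℤ, fourierCoeff F n = Fo_a A n := by
    intro n
    rw [fourierCoeff_eq_intervalIntegral (T := (1:ℝ)) F n 0]
    rw [zero_add, one_div, inv_one, one_smul]
    unfold Fo_a
    refine intervalIntegral.integral_congr (fun y _ => ?_)
    show (fourier (-n) ((y : ℝ) : AddCircle (1:ℝ))) • F ((y : ℝ) : AddCircle (1:ℝ)) = Fo_g A n (y : ℂ)
    rw [fourier_coe_apply]
    have := hF y
    unfold Fo_g
    rw [show F ((y : ℝ) : AddCircle (1:ℝ)) = A (y : ℂ) from this, smul_eq_mul, mul_comm]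
    congr 2
    push_cast
    ring
  have hsum : Summable (fourierCoeff F) := by
    have h1 : fourierCoeff F = fun n => Fo_a A 0 * jacobiTheta₂_term n (1 / 2) z := by
      funext n
      rw [hcoef, Fo_val z A dA A1 Az n]
    rw [h1]
    exact ((summable_jacobiTheta₂_term_iff (1 / 2) z).mpr hz).mul_left _
  have h2 := has_pointwise_sum_fourier_series_of_summable hsum (x : UnitAddCircle)
  rw [hF x] at h2
  rw [← h2.tsum_eq]
  unfold jacobiTheta₂
  rw [← tsum_mul_left]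
  refine tsum_congr (fun n => ?_)
  rw [hcoef, Fo_val z A dA A1 Az n]
  rw [show ((x : ℝ) : UnitAddCircle) = ((x : ℝ) : AddCircle (1:ℝ)) from rfl, fourier_coe_apply,
    smul_eq_mul, mul_assoc]
  congr 1
  unfold jacobiTheta₂_term
  rw [← Complex.exp_add]
  congr 1
  push_cast
  ring

theorem four (z : ℂ) (hz : 0 < z.im) (A : ℂ → ℂ) (dA : Differentiable ℂ A) (A0 : A 0 = 1)
    (A1 : ∀ s, A (s + 1) = A s)
    (Az : ∀ s, A (s + z) = -(exp (-(Real.pi * I * z) - 2 * Real.pi * I * s) * A s)) :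
    ∃ c0 : ℂ, c0 ≠ 0 ∧ ∀ s, A s = c0 * jacobiTheta₂ (s + 1 / 2) z := by
  refine ⟨Fo_a A 0, ?_, ?_⟩
  · intro h0
    have h := Fo_real z hz A dA A1 Az 0
    rw [h0, zero_mul] at h
    rw [show ((0:ℝ) : ℂ) = 0 from Complex.ofReal_zero, A0] at h
    exact one_ne_zero h
  · have hf : AnalyticOnNhd ℂ A Set.univ := fun s _ => (dA.analyticAt s)
    have dB : Differentiable ℂ (fun s : ℂ => Fo_a A 0 * jacobiTheta₂ (s + 1 / 2) z) := by
      intro s
      have h1 := differentiableAt_jacobiTheta₂_fst (s + 1 / 2) hz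
      have h2 : DifferentiableAt ℂ (fun s : ℂ => s + 1 / 2) s := by fun_prop
      exact (DifferentiableAt.comp (𝕜 := ℂ) s h1 h2).const_mul _
    have hg : AnalyticOnNhd ℂ (fun s : ℂ => Fo_a A 0 * jacobiTheta₂ (s + 1 / 2) z) Set.univ :=
      fun s _ => dB.analyticAt s
    have hfr : ∃ᶠ s in nhdsWithin (0:ℂ) {0}ᶜ, A s = Fo_a A 0 * jacobiTheta₂ (s + 1 / 2) z := by
      have ht : Filter.Tendsto (fun x : ℝ => (x : ℂ)) (nhdsWithin (0:ℝ) {0}ᶜ)
          (nhdsWithin (0:ℂ) {0}ᶜ) := by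
        apply tendsto_nhdsWithin_of_tendsto_nhds_of_eventually_within
        · have := (Complex.continuous_ofReal.tendsto (0:ℝ))
          rw [Complex.ofReal_zero] at this
          exact this.mono_left nhdsWithin_le_nhds
        · filter_upwards [self_mem_nhdsWithin] with x hx
          simpa using hx
      refine ht.frequently ?_
      exact Filter.Frequently.of_forall (fun x => Fo_real z hz A dA A1 Az x)
    have := hf.eq_of_frequently_eq hg hfr
    intro s
    exact congrFun this s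

end AZ
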